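import Pool.Agent.MP_a32717_an.Sym.Base

/-! The upper boundary of a compact convex set in a product with a line. -/

open MeasureTheory Set Metric Module Filter Topology
open scoped ENNReal NNReal RealInnerProductSpace

set_option linter.unusedSectionVars false

noncomputable section
namespace Pool.Agent.MP_a32717_an.Sym

variable {V : Type*} [NormedAddCommGroup V] [NormedSpace ℝ V] {K : Set (V × ℝ)} {y : V} {t : ℝ}

/-- the height of the top point over `y` -/
def top (K : Set (V × ℝ)) (y : V) : ℝ := sSup {t | (y, t) ∈ K}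

lemma fib_compact (hK : IsCompact K) (y : V) : IsCompact {t | (y, t) ∈ K} :=
  (Topology.IsClosedEmbedding.of_continuous_injective_isClosedMap (f := fun t : ℝ => (y, t))
    (by fun_prop) (fun a b h => by simpa using h) (isClosedMap_prodMk_left y)).isCompact_preimage hK

lemma top_mem (hK : IsCompact K) (hy : y ∈ Prod.fst '' K) : (y, top K y) ∈ K := by
  obtain ⟨q, hq, rfl⟩ := hy
  exact (fib_compact hK q.1).sSup_mem ⟨q.2, hq⟩

lemma le_top (hK : IsCompact K) (h : (y, t) ∈ K) : t ≤ top K y :=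
  le_csSup (fib_compact hK y).bddAbove h

lemma proj_convex (hc : Convex ℝ K) : Convex ℝ (Prod.fst '' K) :=
  hc.linear_image (LinearMap.fst ℝ V ℝ)

lemma top_concave (hK : IsCompact K) (hc : Convex ℝ K) : ConcaveOn ℝ (Prod.fst '' K) (top K) :=
  ⟨proj_convex hc, fun _ hx _ hy _ _ ha hb hab =>
    le_top hK (hc (top_mem hK hx) (top_mem hK hy) ha hb hab)⟩

lemma top_contOn [FiniteDimensional ℝ V] (hK : IsCompact K) (hc : Convex ℝ K) :
    ContinuousOn (top K) (interior (Prod.fst '' K)) :=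
  (top_concave hK hc).continuousOn_interior

lemma top_frontier (hK : IsCompact K) (hy : y ∈ Prod.fst '' K) : (y, top K y) ∈ frontier K := by
  refine ⟨subset_closure (top_mem hK hy), fun h => ?_⟩
  have h1 : ∀ᶠ t in 𝓝 (top K y), (y, t) ∈ K :=
    (Continuous.prodMk_right y).continuousAt.eventually (mem_interior_iff_mem_nhds.1 h)
  obtain ⟨t, h2, h3⟩ := ((h1.filter_mono nhdsWithin_le_nhds).and
    (self_mem_nhdsWithin (s := Ioi (top K y)))).exists
  exact (le_top hK h2).not_gt h3

lemma zero_mem_interior_proj (h0 : 0 ∈ interior K) : 0 ∈ interior (Prod.fst '' K) :=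
  interior_maximal (image_mono interior_subset) (isOpenMap_fst _ isOpen_interior) ⟨0, h0, rfl⟩

lemma exists_vert (h0 : 0 ∈ interior K) : ∃ ε : ℝ, 0 < ε ∧ (0, ε) ∈ K ∧ (0, -ε) ∈ K := by
  obtain ⟨r, hr, hb⟩ := Metric.mem_nhds_iff.1 (mem_interior_iff_mem_nhds.1 h0)
  refine ⟨r / 2, by positivity, hb ?_, hb ?_⟩ <;>
  · simp only [mem_ball, dist_zero_right, Prod.norm_mk, norm_zero, Real.norm_eq_abs, abs_neg]
    rw [abs_of_pos (by positivity)]
    exact max_lt hr (by linarith)

lemma top_nondeg (hK : IsCompact K) (hc : Convex ℝ K) (h0 : 0 ∈ interior K)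
    (hy : y ∈ interior (Prod.fst '' K)) : ∃ t < top K y, (y, t) ∈ K := by
  obtain ⟨ε, hε, e1, e2⟩ := exists_vert h0
  have h1 : ∀ᶠ s : ℝ in 𝓝 1, s • y ∈ Prod.fst '' K := by
    have : ContinuousAt (fun s : ℝ => s • y) 1 := by fun_prop
    exact this.eventually_mem (by simpa using mem_interior_iff_mem_nhds.1 hy)
  obtain ⟨s, ⟨q, hq, hqy⟩, hs⟩ := ((h1.filter_mono nhdsWithin_le_nhds).and
    (self_mem_nhdsWithin (s := Ioi (1 : ℝ)))).exists
  have hs1 : 1 < s := hs
  have hs0 : 0 < s := by linarith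
  have a0 : 0 < 1 - s⁻¹ := by rw [sub_pos]; exact inv_lt_one_of_one_lt₀ hs1
  have key : ∀ z : ℝ, ((0 : V), z) ∈ K → (y, s⁻¹ * q.2 + (1 - s⁻¹) * z) ∈ K := fun z hz => by
    have := hc hq hz (inv_pos.2 hs0).le a0.le (by ring)
    convert this using 1
    ext
    · simp [hqy, smul_smul, hs0.ne']
    · simp
  refine ⟨_, lt_of_lt_of_le ?_ (le_top hK (key _ e1)), key _ e2⟩
  nlinarith

lemma top_usc (hK : IsCompact K) {a : ℝ} (ha : top K y < a) :
    ∀ᶠ z in 𝓝 y, z ∈ Prod.fst '' K → top K z < a := by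
  have h1 : IsClosed (Prod.fst '' (K ∩ {q | a ≤ q.2})) :=
    ((hK.inter_right (isClosed_le continuous_const continuous_snd)).image continuous_fst).isClosed
  have h2 : y ∉ Prod.fst '' (K ∩ {q | a ≤ q.2}) := by
    rintro ⟨q, ⟨h3, h4⟩, rfl⟩
    exact (le_top hK h3).not_gt (ha.trans_le h4)
  filter_upwards [h1.isOpen_compl.mem_nhds h2] with z hz hz'
  exact not_le.1 fun h => hz ⟨_, ⟨top_mem hK hz', h⟩, rfl⟩

lemma smul_mem_int {H : Set V} (hc : Convex ℝ H) (h0 : 0 ∈ interior H) {p : V} (hp : p ∈ H)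
    {r : ℝ} (h1 : 0 ≤ r) (h2 : r < 1) : r • p ∈ interior H := by
  simpa using hc.combo_interior_self_mem_interior h0 hp (a := 1 - r) (b := r) (by linarith) h1
    (by ring)

lemma top_ray [FiniteDimensional ℝ V] (hK : IsCompact K) (hc : Convex ℝ K) (h0 : 0 ∈ interior K)
    {p : V} (hp : p ∈ Prod.fst '' K) : ContinuousOn (fun r : ℝ => top K (r • p)) (Icc 0 1) := by
  have h0' := zero_mem_interior_proj h0
  have hc' := proj_convex hc
  have z := interior_subset h0'
  intro r hr
  rcases hr.2.lt_or_eq with h | rfl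
  · have hi := smul_mem_int hc' h0' hp hr.1 h
    have h1 : ContinuousAt (top K) (r • p) :=
      (top_contOn hK hc).continuousAt (isOpen_interior.mem_nhds hi)
    exact (h1.comp (f := fun r : ℝ => r • p) (by fun_prop)).continuousWithinAt
  · have hm : ∀ s ∈ Icc (0 : ℝ) 1, s • p ∈ Prod.fst '' K :=
      fun s hs => hc'.smul_mem_of_zero_mem z hp hs
    refine tendsto_order.2 ⟨fun a ha => ?_, fun a ha => ?_⟩
    · have h1 : Tendsto (fun s : ℝ => (1 - s) * top K 0 + s * top K p) (𝓝 1)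
          (𝓝 (top K ((1 : ℝ) • p))) := Continuous.tendsto' (by fun_prop) _ _ (by simp)
      filter_upwards [(h1.eventually (lt_mem_nhds ha)).filter_mono nhdsWithin_le_nhds,
        self_mem_nhdsWithin] with s h2 hs
      refine h2.trans_le ?_
      simpa using (top_concave hK hc).2 z hp (sub_nonneg.2 hs.2) hs.1 (by ring)
    · have h1 : Tendsto (fun s : ℝ => s • p) (𝓝 1) (𝓝 ((1 : ℝ) • p)) :=
        Continuous.tendsto (by fun_prop) _
      filter_upwards [(h1.eventually (top_usc hK ha)).filter_mono nhdsWithin_le_nhds,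
        self_mem_nhdsWithin] with s h2 hs
      exact h2 (hm s hs)

/-- the fibres of a symmetric compact convex set -/
lemma fib_eq (hK : IsCompact K) (hc : Convex ℝ K) (hs : ∀ q ∈ K, -q ∈ K)
    (hy : y ∈ Prod.fst '' K) : {t | (y, t) ∈ K} = Icc (-top K (-y)) (top K y) := by
  have hy' : -y ∈ Prod.fst '' K := by
    obtain ⟨q, hq, rfl⟩ := hy; exact ⟨-q, hs q hq, rfl⟩
  ext t
  refine ⟨fun h => ⟨neg_le.1 (le_top hK (hs _ h)), le_top hK h⟩, fun h => ?_⟩
  have h1 : (y, -top K (-y)) ∈ K := by simpa using hs _ (top_mem hK hy')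
  have h2 : Convex ℝ {t | (y, t) ∈ K} := fun a ha b hb u v hu hv huv => by
    have := hc ha hb hu hv huv
    simpa [← add_smul, huv] using this
  exact h2.ordConnected.out h1 (top_mem hK hy) h

end Pool.Agent.MP_a32717_an.Sym
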