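import Mathlib

/-! One-variable facts for the planar lemma. -/

open MeasureTheory Set intervalIntegral

noncomputable section
namespace Pool.Agent.MP_a32717_an.Sym

lemma imono {f g : ℝ → ℝ} {a b : ℝ} (hab : a ≤ b) (hf : Continuous f) (hg : Continuous g)
    (h : ∀ x ∈ Icc a b, f x ≤ g x) : ∫ x in a..b, f x ≤ ∫ x in a..b, g x :=
  integral_mono_on hab (hf.intervalIntegrable _ _) (hg.intervalIntegrable _ _) h

lemma isplit {f : ℝ → ℝ} (hf : Continuous f) (a b c : ℝ) :
    ∫ x in a..c, f x = (∫ x in a..b, f x) + ∫ x in b..c, f x :=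
  (integral_add_adjacent_intervals (hf.intervalIntegrable _ _) (hf.intervalIntegrable _ _)).symm

lemma iquad (a b α γ κ : ℝ) : ∫ r in a..b, (α * (r - a) ^ 2 + γ * (r - a) + κ) =
    α * (b - a) ^ 3 / 3 + γ * (b - a) ^ 2 / 2 + κ * (b - a) := by
  rw [integral_eq_sub_of_hasDerivAt
    (f := fun r => α * (r - a) ^ 3 / 3 + γ * (r - a) ^ 2 / 2 + κ * (r - a))
    (fun x _ => ?_) (Continuous.intervalIntegrable (by fun_prop) _ _)]
  · ring
  · have h := (hasDerivAt_id x).sub_const a
    refine HasDerivAt.congr_deriv (((((h.fun_pow 3).const_mul α).div_const 3).fun_add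
      (((h.fun_pow 2).const_mul γ).div_const 2)).fun_add (h.const_mul κ)) ?_
    simp only [id]; ring

/-- the upper Hermite-Hadamard inequality on an interval -/
lemma hh {φ : ℝ → ℝ} {a b : ℝ} (hab : a ≤ b) (hφ : Continuous φ)
    (h : ∀ r ∈ Icc a b, (b - a) * φ r ≤ (b - r) * φ a + (r - a) * φ b) :
    ∫ r in a..b, φ r ≤ (b - a) * (φ a + φ b) / 2 := by
  rcases hab.eq_or_lt with rfl | hlt
  · simp
  have h0 : 0 < b - a := sub_pos.2 hlt
  have h1 := imono (f := φ) (g := fun r => 0 * (r - a) ^ 2 + (φ b - φ a) / (b - a) * (r - a) + φ a)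
    hab hφ (by fun_prop) fun r hr => by
      refine le_of_mul_le_mul_left ((h r hr).trans_eq ?_) h0
      field_simp; ring
  rw [iquad] at h1
  refine h1.trans_eq ?_
  field_simp; ring

/-- weighted means stay in a closed convex set -/
lemma wmem {X : Type*} [NormedAddCommGroup X] [NormedSpace ℝ X] [CompleteSpace X]
    {s : Set X} (hs : Convex ℝ s) (hc : IsClosed s) {γ : ℝ → X} {δ : ℝ → ℝ}
    {a b : ℝ} (hab : a ≤ b) (hγ : Continuous γ) (hδ : Continuous δ) (h0 : ∀ r ∈ Icc a b, 0 ≤ δ r)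
    (hm : ∀ r ∈ Icc a b, γ r ∈ s) (hD : 0 < ∫ r in a..b, δ r) :
    (∫ r in a..b, δ r)⁻¹ • ∫ r in a..b, δ r • γ r ∈ s := by
  set ν := (volume.restrict (Ioc a b)).withDensity fun r => ENNReal.ofReal (δ r) with hν
  have ae : ∀ᵐ r ∂volume.restrict (Ioc a b), r ∈ Icc a b :=
    ae_restrict_of_forall_mem measurableSet_Ioc fun r hr => Ioc_subset_Icc_self hr
  have e0 : ν univ = ENNReal.ofReal (∫ r in a..b, δ r) := by
    rw [hν, withDensity_apply _ MeasurableSet.univ, Measure.restrict_univ, integral_of_le hab,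
      ofReal_integral_eq_lintegral_ofReal (hδ.integrableOn_Ioc) (ae.mono h0)]
  have : IsFiniteMeasure ν := ⟨e0 ▸ ENNReal.ofReal_lt_top⟩
  have : NeZero ν := ⟨fun h => by simp [h, eq_comm, hD.not_ge] at e0⟩
  have ac : ν ≪ volume.restrict (Ioc a b) := withDensity_absolutelyContinuous _ _
  have e1 : (fun r => (ENNReal.ofReal (δ r)).toReal • γ r) =ᵐ[volume.restrict (Ioc a b)]
      fun r => δ r • γ r := ae.mono fun r hr => by simp only [ENNReal.toReal_ofReal (h0 r hr)]
  have hi : Integrable γ ν := by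
    rw [hν, integrable_withDensity_iff_integrable_smul' (by fun_prop) (by simp),
      integrable_congr e1]
    exact (hδ.smul hγ).integrableOn_Ioc
  have := hs.average_mem hc (ac.ae_le (ae.mono hm)) hi
  rwa [average_eq, Measure.real, e0, ENNReal.toReal_ofReal hD.le, hν,
    integral_withDensity_eq_integral_toReal_smul (by fun_prop) (by simp), integral_congr_ae e1,
    ← integral_of_le hab] at this

lemma ipair {X Y : Type*} [NormedAddCommGroup X] [NormedSpace ℝ X] [CompleteSpace X]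
    [NormedAddCommGroup Y] [NormedSpace ℝ Y] [CompleteSpace Y] {f : ℝ → X} {g : ℝ → Y} {δ : ℝ → ℝ}
    {a b : ℝ} (hab : a ≤ b) (hf : Continuous f) (hg : Continuous g) (hδ : Continuous δ) :
    ∫ r in a..b, δ r • (f r, g r) = (∫ r in a..b, δ r • f r, ∫ r in a..b, δ r • g r) := by
  simp only [integral_of_le hab, Prod.smul_mk]
  exact integral_pair (hδ.smul hf).integrableOn_Ioc (hδ.smul hg).integrableOn_Ioc

/-- a continuous concave profile on the unit interval with its maximum at the origin -/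
structure Prof (h : ℝ → ℝ) (M : ℝ) : Prop where
  cont : Continuous h
  three : ∀ a r b, 0 ≤ a → a ≤ r → r ≤ b → b ≤ 1 → (b - r) * h a + (r - a) * h b ≤ (b - a) * h r
  nn : ∀ r ∈ Icc (0 : ℝ) 1, 0 ≤ h r
  max : ∀ r ∈ Icc (0 : ℝ) 1, h r ≤ h 0
  int : ∫ r in (0 : ℝ)..1, h r ≤ M
  big : M < h 0

namespace Prof
variable {h : ℝ → ℝ} {M t : ℝ} (H : Prof h M)
include H

lemma anti {r s : ℝ} (h0 : 0 ≤ r) (h1 : r ≤ s) (h2 : s ≤ 1) : h s ≤ h r := by
  rcases (h0.trans h1).eq_or_lt with rfl | hs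
  · rw [le_antisymm h1 h0]
  have a := H.three 0 r s le_rfl h0 h1 h2
  have b := H.max s ⟨hs.le, h2⟩
  refine le_of_mul_le_mul_left ?_ hs
  nlinarith

lemma low {a b : ℝ} (h0 : 0 ≤ a) (h1 : a ≤ b) (h2 : b ≤ 1) :
    (b - a) * (h a + h b) / 2 ≤ ∫ r in a..b, h r := by
  have := hh (φ := fun r => -h r) h1 H.cont.neg fun r hr => by
    linarith [H.three a r b h0 hr.1 hr.2 h2]
  rw [intervalIntegral.integral_neg] at this
  linarith

lemma star {r : ℝ} (h0 : 0 ≤ r) (h1 : r ≤ 1) : r * h 0 + h r ≤ 2 * M := by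
  have a := H.low le_rfl h0 h1
  have b := H.low h0 h1 le_rfl
  have c := isplit H.cont 0 r 1
  have d := mul_nonneg (sub_nonneg.2 h1) (H.nn 1 ⟨zero_le_one, le_rfl⟩)
  linarith [H.int]

lemma pos : 0 < M := by
  linarith [H.star zero_le_one le_rfl, H.big, H.nn 1 ⟨zero_le_one, le_rfl⟩]

lemma cross : ∃ t ∈ Ioo (0 : ℝ) 1, h t = M :=
  intermediate_value_Ioo' zero_le_one H.cont.continuousOn
    ⟨by linarith [H.star zero_le_one le_rfl, H.big], H.big⟩

variable (ht : t ∈ Ioo (0 : ℝ) 1) (hM : h t = M)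
include ht hM

lemma dpos : 0 < ∫ r in t..1, (M - h r) := by
  have := H.cont
  refine intervalIntegral_pos_of_pos_on (Continuous.intervalIntegrable (by fun_prop) _ _)
    (fun r hr => ?_) ht.2
  have a := H.three 0 t r le_rfl ht.1.le hr.1.le hr.2.le
  have b := mul_pos (sub_pos.2 hr.1) (sub_pos.2 H.big)
  refine pos_of_mul_pos_left ?_ ht.1.le
  rw [hM] at a
  nlinarith

lemma excess : ∫ r in (0 : ℝ)..t, (h r - M) ≤ ∫ r in t..1, (M - h r) := by
  have i := H.cont.intervalIntegrable (μ := volume)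
  rw [integral_sub (i _ _) (by simp), integral_sub (by simp) (i _ _)]
  simp only [intervalIntegral.integral_const, smul_eq_mul]
  linarith [H.int, isplit H.cont 0 t 1]

lemma bary : (2 + t) / 3 * ∫ r in t..1, (M - h r) ≤ ∫ r in t..1, (M - h r) * r := by
  have := H.cont
  set s := (2 + t) / 3 with hs
  have s1 : 0 < s - t := by linarith [ht.2]
  have s2 : s ≤ 1 := by linarith [ht.2]
  have a := imono (f := fun r => (M - h s) * (r - t) ^ 2 + -((M - h s) * (s - t)) * (r - t) + 0)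
    (g := fun r => (s - t) * ((M - h r) * r - s * (M - h r))) ht.2.le (by fun_prop) (by fun_prop)
    fun r hr => by
      rcases le_total r s with q | q
      · have b := H.three t r s ht.1.le hr.1 q s2
        rw [hM] at b
        nlinarith [mul_nonneg (sub_nonneg.2 q) (sub_nonneg.2 b)]
      · have b := H.three t s r ht.1.le (by linarith) q hr.2
        rw [hM] at b
        nlinarith [mul_nonneg (sub_nonneg.2 q) (sub_nonneg.2 b)]
  rw [iquad, intervalIntegral.integral_const_mul, integral_sub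
    (Continuous.intervalIntegrable (by fun_prop) _ _)
    (Continuous.intervalIntegrable (by fun_prop) _ _), intervalIntegral.integral_const_mul] at a
  have e : (M - h s) * (1 - t) ^ 3 / 3 + -((M - h s) * (s - t)) * (1 - t) ^ 2 / 2 + 0 * (1 - t) =
      0 := by rw [hs]; ring
  rw [e] at a
  linarith [nonneg_of_mul_nonneg_right a s1]

lemma sq : ∫ r in t..1, (M - h r) * (M - h r - 2 * M / 3) ≤ 0 := by
  have := H.cont
  have M0 := H.pos
  have n1 := H.nn 1 ⟨zero_le_one, le_rfl⟩
  have d0 : ∀ r ∈ Icc t 1, 0 ≤ M - h r := fun r hr => by linarith [H.anti ht.1.le hr.1 hr.2]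
  have neg : ∀ b ∈ Icc t 1, M - h b ≤ 2 * M / 3 →
      ∫ r in t..b, (M - h r) * (M - h r - 2 * M / 3) ≤ 0 := fun b hb q => by
    refine (imono (g := fun _ => 0) hb.1 (by fun_prop) (by fun_prop) fun r hr => ?_).trans (by simp)
    exact mul_nonpos_of_nonneg_of_nonpos (d0 r ⟨hr.1, hr.2.trans hb.2⟩)
      (by linarith [H.anti (ht.1.le.trans hr.1) hr.2 hb.2])
  rcases le_or_gt (M - h 1) (2 * M / 3) with q | q
  · exact neg 1 ⟨ht.2.le, le_rfl⟩ q
  obtain ⟨u, hu, hu'⟩ : ∃ u ∈ Ioo t 1, h u = 2 * M / 3 :=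
    intermediate_value_Ioo' ht.2.le H.cont.continuousOn ⟨by linarith, by linarith⟩
  have u0 : 0 < 1 - u := sub_pos.2 hu.2
  set k := 2 * M / 3 / (1 - u) with hk
  have k1 : k * (1 - u) = 2 * M / 3 := div_mul_cancel₀ _ u0.ne'
  set s := u - (1 - u) / 2 with hs
  have l1 : ∀ r, 0 ≤ r → r ≤ u → k * (r - s) ≤ M - h r := fun r a b => by
    have c := H.three r u 1 a b hu.2.le le_rfl
    refine le_of_mul_le_mul_left ?_ u0
    have e : (1 - u) * (k * (r - s)) = 2 * M / 3 * (r - s) := by rw [← k1]; ring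
    rw [hu'] at c
    rw [e, hs]
    nlinarith [mul_nonneg (sub_nonneg.2 b) n1]
  have l2 : ∀ r, u ≤ r → r ≤ 1 → M - h r ≤ k * (r - s) := fun r a b => by
    have c := H.three u r 1 (ht.1.trans hu.1).le a b le_rfl
    refine le_of_mul_le_mul_left ?_ u0
    have e : (1 - u) * (k * (r - s)) = 2 * M / 3 * (r - s) := by rw [← k1]; ring
    rw [hu'] at c
    rw [e, hs]
    nlinarith [mul_nonneg (sub_nonneg.2 a) n1]
  have k0 : 0 < k := by positivity
  have s1 : t ≤ s := by
    have := l1 t ht.1.le hu.1.le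
    rw [hM, sub_self] at this
    linarith [nonpos_of_mul_nonpos_right this k0]
  have s2 : s ≤ u := by linarith
  have a := neg s ⟨s1, by linarith⟩ (by linarith [H.anti (ht.1.le.trans s1) s2 hu.2.le])
  have b := imono (f := fun r => (M - h r) * (M - h r - 2 * M / 3))
    (g := fun r => k ^ 2 * (r - s) ^ 2 + -(2 * M / 3 * k) * (r - s) + 0) (a := s) (b := 1)
    (by linarith) (by fun_prop) (by fun_prop) fun r hr => by
      have r0 : 0 ≤ r := ht.1.le.trans (s1.trans hr.1)
      rcases le_total r u with p | p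
      · have c := l1 r r0 p
        have d := H.anti r0 p hu.2.le
        nlinarith [mul_nonneg (sub_nonneg.2 c)
          (show 0 ≤ 2 * M / 3 - (M - h r) - k * (r - s) by linarith)]
      · have c := l2 r p hr.2
        have d := H.anti (ht.1.trans hu.1).le p hr.2
        nlinarith [mul_nonneg (sub_nonneg.2 c)
          (show 0 ≤ (M - h r) + k * (r - s) - 2 * M / 3 by linarith)]
  rw [iquad] at b
  have e : k * (1 - s) = M := by rw [hs]; linarith
  have e' : k ^ 2 * (1 - s) ^ 3 / 3 + -(2 * M / 3 * k) * (1 - s) ^ 2 / 2 + 0 * (1 - s) = 0 := by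
    rw [← e]; ring
  rw [isplit (by fun_prop) t s 1]
  linarith

/-- the polynomial majorant -/
def pp (y : ℝ) : ℝ := y + 3 / 4 * y ^ 2 + 5 / 4 * y ^ 4

lemma cheb : ∫ r in (0 : ℝ)..t, (h r - M) * pp (r / t) ≤ ∫ r in (0 : ℝ)..t, (h r - M) := by
  have := H.cont
  have pc : Continuous pp := by unfold pp; fun_prop
  have pm : ∀ x y, 0 ≤ x → x ≤ y → pp x ≤ pp y := fun x y a b => by unfold pp; gcongr
  obtain ⟨y, hy, hy'⟩ : ∃ y ∈ Icc (0 : ℝ) 1, pp y = 1 :=
    intermediate_value_Icc zero_le_one pc.continuousOn ⟨by simp [pp], by norm_num [pp]⟩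
  have t0 := ht.1
  have y1 : y * t ≤ t := mul_le_of_le_one_left t0.le hy.2
  have a := imono (f := fun r => (h r - M) * pp (r / t) - (h r - M))
    (g := fun r => (h (y * t) - M) * (pp (r / t) - 1)) t0.le (by fun_prop) (by fun_prop)
    fun r hr => by
      rcases le_total r (y * t) with q | q
      · have b := H.anti hr.1 q (y1.trans ht.2.le)
        have c := pm _ _ (div_nonneg hr.1 t0.le) ((div_le_iff₀ t0).2 q)
        nlinarith [mul_nonneg (sub_nonneg.2 b) (sub_nonneg.2 c)]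
      · have b := H.anti (mul_nonneg hy.1 t0.le) q (hr.2.trans ht.2.le)
        have c := pm _ _ hy.1 ((le_div_iff₀ t0).2 q)
        nlinarith [mul_nonneg (sub_nonneg.2 b) (sub_nonneg.2 c)]
  have e : ∫ r in (0 : ℝ)..t, (pp (r / t) - 1) = 0 := by
    rw [integral_comp_div (f := fun y => pp y - 1) t0.ne', zero_div, div_self t0.ne',
      integral_eq_sub_of_hasDerivAt (f := fun y => y ^ 2 / 2 + y ^ 3 / 4 + y ^ 5 / 4 - y)
        (fun x _ => ?_) (Continuous.intervalIntegrable (by fun_prop) _ _)]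
    · norm_num
    · refine HasDerivAt.congr_deriv (((((hasDerivAt_pow 2 x).div_const 2).fun_add
        ((hasDerivAt_pow 3 x).div_const 4)).fun_add
        ((hasDerivAt_pow 5 x).div_const 4)).fun_sub (hasDerivAt_id x)) ?_
      simp only [pp]; ring
  rw [intervalIntegral.integral_const_mul, e, mul_zero, integral_sub
    (Continuous.intervalIntegrable (by fun_prop) _ _)
    (Continuous.intervalIntegrable (by fun_prop) _ _)] at a
  linarith

/-- the two numerical bounds on a long chord -/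
lemma gap {R r : ℝ} (hR : (2 + t) / 3 ≤ R) (hr : r ∈ Icc 0 t) :
    h r - M ≤ (1 - r / R) * (h 0 / 2) + r / R * (M / 6) ∧
    h r * (r / R) ≤ 2 * ((1 - r / R) * (h 0 / 2) + r / R * (M / 6)) * pp (r / t) := by
  have M0 := H.pos
  have t0 := ht.1
  have t1 := ht.2
  have R0 : 0 < R := by linarith
  have r1 : r ≤ 1 := hr.2.trans t1.le
  have b := H.big
  have a1 := H.max r ⟨hr.1, r1⟩
  have a2 : M ≤ h r := hM ▸ H.anti hr.1 hr.2 t1.le
  have a3 := H.star hr.1 r1
  have a4 := H.star t0.le t1.le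
  have a5 := H.three r t 1 hr.1 hr.2 t1.le le_rfl
  have a6 := mul_nonneg (sub_nonneg.2 hr.2) (H.nn 1 ⟨zero_le_one, le_rfl⟩)
  rw [hM] at a4 a5
  have x0 : 0 ≤ r / R := div_nonneg hr.1 R0.le
  have xy : r / R ≤ r / t := div_le_div_of_nonneg_left hr.1 t0 (by linarith)
  have y1 : r / t ≤ 1 := (div_le_one t0).2 hr.2
  constructor
  · have c1 : r * h r + h r ≤ 2 * M := by nlinarith [mul_le_mul_of_nonneg_left a1 hr.1]
    have c2 : 0 ≤ 2 * M - h r := by nlinarith [mul_nonneg hr.1 (M0.le.trans a2)]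
    have c3 : r * (3 * h r - M) ≤ (2 + t) * (2 * M - h r) := by
      refine le_of_mul_le_mul_left ?_ (M0.trans_le a2)
      have d1 : 0 ≤ (h r * (2 + t) - (3 * h r - M + M * r)) * (2 * M - h r) :=
        mul_nonneg (by linarith) c2
      have d2 : 0 ≤ (3 * h r - M) * (2 * M - r * h r - h r) :=
        mul_nonneg (by linarith) (by linarith)
      have d3 : 0 ≤ M * r * (2 * M - h r) := mul_nonneg (mul_nonneg M0.le hr.1) c2
      linarith
    have c4 : r / R * (3 * h r - M) ≤ 3 * (2 * M - h r) := by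
      rw [div_mul_eq_mul_div, div_le_iff₀ R0]
      nlinarith [mul_nonneg (sub_nonneg.2 hR) c2]
    nlinarith [mul_nonneg (sub_nonneg.2 (xy.trans y1)) (sub_nonneg.2 a1)]
  · have h0 : 0 < h 0 := M0.trans b
    have c1 : 7 * (t * h 0) - 3 * (t * M) ≤ 4 * h 0 := by
      refine le_of_mul_le_mul_left ?_ h0
      have d1 : 0 ≤ (M - t * h 0) * (7 * h 0 - 3 * M) := mul_nonneg (by linarith) (by linarith)
      have d2 : 0 ≤ (4 * h 0 - 3 * M) * (h 0 - M) := mul_nonneg (by linarith) (by linarith)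
      linarith
    have c2 : r / R * (h 0 - M / 3) ≤ r / t * (2 / 3 * h 0) := by
      rw [div_mul_eq_mul_div, div_mul_eq_mul_div, div_le_div_iff₀ R0 t0, mul_assoc, mul_assoc]
      refine mul_le_mul_of_nonneg_left ?_ hr.1
      nlinarith [mul_nonneg (sub_nonneg.2 hR) h0.le]
    set x := r / R
    set y := r / t
    have y0 : 0 ≤ y := x0.trans xy
    have p0 : 0 ≤ pp y := by unfold pp; positivity
    have c3 : y ≤ (1 - 2 / 3 * y) * pp y := by
      have : 0 ≤ y ^ 2 * (1 - y) * (1 - 5 * y + 10 * y ^ 2) :=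
        mul_nonneg (mul_nonneg (sq_nonneg y) (by linarith)) (by nlinarith [sq_nonneg (y - 1 / 4)])
      unfold pp
      linarith
    calc h r * x ≤ h 0 * y := by gcongr
      _ ≤ h 0 * ((1 - 2 / 3 * y) * pp y) := by gcongr
      _ ≤ _ := by
        rw [← mul_assoc]
        exact mul_le_mul_of_nonneg_right (by linarith) p0

end Prof

end Pool.Agent.MP_a32717_an.Sym
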