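import Pool.Agent.MP_a32717_an.Sym.Base
import Pool.Agent.MP_a32717_an.Sym.Line

/-! The mean of an even concave function along a radius against its mean over the body. -/

open MeasureTheory Set Metric Module Filter Topology
open scoped ENNReal NNReal Pointwise

set_option linter.unusedSectionVars false

noncomputable section
namespace Pool.Agent.MP_a32717_an.Sym

lemma swap_meas {W : Type*} [MeasurableSpace W] (μ : Measure W) [SFinite μ] {D : Set (ℝ × W)}
    (hD : MeasurableSet D) : ∫⁻ t in Ioo (0 : ℝ) 1, μ {z | (t, z) ∈ D} =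
      ∫⁻ z, volume ({t | (t, z) ∈ D} ∩ Ioo 0 1) ∂μ := by
  have h1 := Measure.prod_apply (μ := volume.restrict (Ioo (0 : ℝ) 1)) (ν := μ) hD
  rw [Measure.prod_apply_symm hD] at h1
  refine h1.symm.trans (lintegral_congr fun z => ?_)
  exact Measure.restrict_apply' measurableSet_Ioo

lemma cake_le {W : Type*} [MeasurableSpace W] (μ : Measure W) [SFinite μ] {a : W → ℝ≥0∞}
    (ha : Measurable a) :
    2 * ∫⁻ t in Ioo (0 : ℝ) 1, μ {z | ENNReal.ofReal (2 * t) ≤ a z} ≤ ∫⁻ z, a z ∂μ := by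
  have := swap_meas μ (D := {q | ENNReal.ofReal (2 * q.1) ≤ a q.2})
    (measurableSet_le (by fun_prop) (ha.comp measurable_snd))
  simp only [mem_ofPred_eq] at this
  rw [this, ← lintegral_const_mul' _ _ (by simp)]
  refine lintegral_mono fun z => ?_
  rcases eq_or_ne (a z) ∞ with h | h
  · simp [h]
  have h1 : {t | ENNReal.ofReal (2 * t) ≤ a z} ∩ Ioo 0 1 ⊆ Icc 0 ((a z).toReal / 2) := fun t ht =>
    ⟨ht.2.1.le, by linarith [(ENNReal.ofReal_le_iff_le_toReal h).1 ht.1]⟩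
  refine (mul_le_mul_right (measure_mono h1) _).trans_eq ?_
  rw [Real.volume_Icc, ← ENNReal.ofReal_ofNat, ← ENNReal.ofReal_mul zero_le_two, sub_zero,
    mul_div_cancel₀ _ two_ne_zero, ENNReal.ofReal_toReal h]

lemma le_cake {W : Type*} [MeasurableSpace W] (μ : Measure W) [SFinite μ] {a : W → ℝ≥0∞}
    (ha : Measurable a) (h2 : ∀ z, a z ≤ ENNReal.ofReal 2) :
    ∫⁻ z, a z ∂μ ≤ 2 * ∫⁻ t in Ioo (0 : ℝ) 1, μ {z | ENNReal.ofReal (2 * t) < a z} := by
  have := swap_meas μ (D := {q | ENNReal.ofReal (2 * q.1) < a q.2})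
    (measurableSet_lt (by fun_prop) (ha.comp measurable_snd))
  simp only [mem_ofPred_eq] at this
  rw [this, ← lintegral_const_mul' _ _ (by simp)]
  refine lintegral_mono fun z => ?_
  have h : a z ≠ ∞ := ne_top_of_le_ne_top ENNReal.ofReal_ne_top (h2 z)
  have h3 := ENNReal.toReal_le_of_le_ofReal zero_le_two (h2 z)
  have h1 : Ioo 0 ((a z).toReal / 2) ⊆ {t | ENNReal.ofReal (2 * t) < a z} ∩ Ioo 0 1 := fun t ht =>
    ⟨(ENNReal.ofReal_lt_iff_lt_toReal (by linarith [ht.1]) h).2 (by linarith [ht.2]), ht.1,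
      by linarith [ht.2]⟩
  refine le_trans (le_of_eq ?_) (mul_le_mul_right (measure_mono h1) _)
  rw [Real.volume_Ioo, ← ENNReal.ofReal_ofNat, ← ENNReal.ofReal_mul zero_le_two, sub_zero,
    mul_div_cancel₀ _ two_ne_zero, ENNReal.ofReal_toReal h]

lemma rearr {a b c d : ℝ≥0∞} (h1 : a ≤ b) (h2 : c ≤ d) : a * d + b * c ≤ a * c + b * d := by
  obtain ⟨x, rfl⟩ := exists_add_of_le h1
  obtain ⟨y, rfl⟩ := exists_add_of_le h2
  calc _ ≤ a * (c + y) + (a + x) * c + x * y := le_self_add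
    _ = _ := by ring

lemma cheb_enn {φ : ℝ → ℝ} {v : ℝ → ℝ≥0∞} (cφ : Continuous φ) (aφ : AntitoneOn φ (Icc 0 1))
    (nφ : ∀ t ∈ Icc (0 : ℝ) 1, 0 ≤ φ t) (av : Antitone v) (fv : v 0 ≠ ∞) :
    ENNReal.ofReal (∫ t in (0 : ℝ)..1, φ t) * ∫⁻ t in Ioo (0 : ℝ) 1, v t ≤
      ∫⁻ t in Ioo (0 : ℝ) 1, ENNReal.ofReal (φ t) * v t := by
  have z : (0 : ℝ) ∈ Icc (0 : ℝ) 1 := ⟨le_rfl, zero_le_one⟩
  have o : (1 : ℝ) ∈ Icc (0 : ℝ) 1 := ⟨zero_le_one, le_rfl⟩
  obtain ⟨s, hs, e⟩ : ∃ s ∈ Icc (0 : ℝ) 1, φ s = ∫ t in (0 : ℝ)..1, φ t :=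
    intermediate_value_Icc' zero_le_one cφ.continuousOn
      ⟨by simpa using imono zero_le_one continuous_const cφ fun t ht => aφ ht o ht.2,
        by simpa using imono zero_le_one cφ continuous_const fun t ht => aφ z ht ht.1⟩
  have mφ : Measurable fun t => ENNReal.ofReal (φ t) := by fun_prop
  have e1 : ∫⁻ t in Ioo (0 : ℝ) 1, ENNReal.ofReal (φ t) = ENNReal.ofReal (φ s) := by
    rw [e, intervalIntegral.integral_of_le zero_le_one, integral_Ioc_eq_integral_Ioo,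
      ofReal_integral_eq_lintegral_ofReal (cφ.integrableOn_Icc.mono_set Ioo_subset_Icc_self)
        (ae_restrict_of_forall_mem measurableSet_Ioo fun t ht => nφ t (Ioo_subset_Icc_self ht))]
  have h1 : ∫⁻ t in Ioo (0 : ℝ) 1, (ENNReal.ofReal (φ s) * v t + ENNReal.ofReal (φ t) * v s) ≤
      ∫⁻ t in Ioo (0 : ℝ) 1, (ENNReal.ofReal (φ t) * v t + ENNReal.ofReal (φ s) * v s) := by
    refine setLIntegral_mono' measurableSet_Ioo fun t ht => ?_
    rcases le_total t s with q | q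
    · exact (rearr (ENNReal.ofReal_le_ofReal (aφ (Ioo_subset_Icc_self ht) hs q)) (av q)).trans_eq
        (add_comm _ _)
    · exact (add_comm _ _).trans_le
        (rearr (ENNReal.ofReal_le_ofReal (aφ hs (Ioo_subset_Icc_self ht) q)) (av q))
  rw [lintegral_add_right _ (mφ.mul_const _), lintegral_add_right _ measurable_const,
    lintegral_mul_const _ mφ, lintegral_const_mul _ av.measurable, e1, setLIntegral_const] at h1
  simp only [Real.volume_Ioo, sub_zero, ENNReal.ofReal_one, mul_one] at h1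
  rw [← e]
  exact ENNReal.le_of_add_le_add_right (ENNReal.mul_ne_top ENNReal.ofReal_ne_top
    (ne_top_of_le_ne_top fv (av hs.1))) h1

lemma cone_height (k : ℕ) {φ : ℝ} (h : 0 ≤ φ) :
    ∫⁻ l in Ioi (0 : ℝ), (if l < φ then ENNReal.ofReal ((1 - l / φ) ^ k) else 0) =
      ENNReal.ofReal (φ / (k + 1)) := by
  have e : (fun l => if l < φ then ENNReal.ofReal ((1 - l / φ) ^ k) else 0) =
      (Iio φ).indicator fun l => ENNReal.ofReal ((1 - l / φ) ^ k) := by
    ext l; simp [indicator]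
  rw [e, lintegral_indicator measurableSet_Iio, Measure.restrict_restrict measurableSet_Iio,
    Iio_inter_Ioi, ← ofReal_integral_eq_lintegral_ofReal
      ((Continuous.integrableOn_Icc (by fun_prop)).mono_set Ioo_subset_Icc_self)
      (ae_restrict_of_forall_mem measurableSet_Ioo fun l hl =>
        pow_nonneg (sub_nonneg.2 (div_le_one_of_le₀ hl.2.le h)) k),
    ← integral_Ioc_eq_integral_Ioo, ← intervalIntegral.integral_of_le h]
  rcases h.eq_or_lt with rfl | h0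
  · simp
  rw [intervalIntegral.integral_comp_div (f := fun y => (1 - y) ^ k) h0.ne', zero_div,
    div_self h0.ne', intervalIntegral.integral_comp_sub_left (fun y => y ^ k), integral_pow]
  simp [div_eq_mul_inv]

theorem mean_prod {W : Type*} [NormedAddCommGroup W] [NormedSpace ℝ W] [FiniteDimensional ℝ W]
    [MeasurableSpace W] [BorelSpace W] (μ : Measure W) [μ.IsAddHaarMeasure] {H : Set (W × ℝ)}
    {ℓ : W × ℝ → ℝ} {φ : ℝ → ℝ} (hH : IsCompact H) (hℓ : ConcaveOn ℝ H ℓ) (hs : ∀ q ∈ H, -q ∈ H)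
    (he : ∀ q ∈ H, ℓ (-q) = ℓ q) (hn : ∀ q ∈ H, 0 ≤ ℓ q) (mℓ : Measurable ℓ) (h1 : (0, 1) ∈ H)
    (h2 : ∀ s, (0, s) ∈ H → s ≤ 1) (cφ : Continuous φ) (hφ : ∀ t ∈ Icc (0 : ℝ) 1, φ t = ℓ (0, t)) :
    ENNReal.ofReal (∫ t in (0 : ℝ)..1, φ t) * μ.prod volume H ≤
      (finrank ℝ W + 1) * ∫⁻ q in H, ENNReal.ofReal (ℓ q) ∂μ.prod volume := by
  set k := finrank ℝ W with hk
  have mH := hH.measurableSet
  have ax : ∀ t, (0, t) ∈ H → ∀ u, |u| ≤ t → (0, u) ∈ H ∧ ℓ (0, t) ≤ ℓ (0, u) := by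
    intro t ht u hu
    rcases ((abs_nonneg u).trans hu).eq_or_lt with rfl | t0
    · rw [abs_nonpos_iff.1 hu]; exact ⟨ht, le_rfl⟩
    have hu' := abs_le.1 hu
    have a : 0 ≤ (t + u) / (2 * t) := div_nonneg (by linarith) (by linarith)
    have b : 0 ≤ (t - u) / (2 * t) := div_nonneg (by linarith) (by linarith)
    have c : (t + u) / (2 * t) + (t - u) / (2 * t) = 1 := by field_simp; ring
    have e : ((t + u) / (2 * t)) • ((0 : W), t) + ((t - u) / (2 * t)) • (-(0, t)) = (0, u) := by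
      ext
      · simp
      · simp only [Prod.snd_add, Prod.smul_snd, Prod.snd_neg, smul_eq_mul]; field_simp; ring
    refine ⟨e ▸ hℓ.1 ht (hs _ ht) a b c, ?_⟩
    have := hℓ.2 ht (hs _ ht) a b c
    rwa [e, he _ ht, ← add_smul, c, one_smul] at this
  have m0 : ∀ t ∈ Icc (0 : ℝ) 1, (0, t) ∈ H := fun t ht =>
    (ax 1 h1 t (by rw [abs_of_nonneg ht.1]; exact ht.2)).1
  have nφ : ∀ t ∈ Icc (0 : ℝ) 1, 0 ≤ φ t := fun t ht => hφ t ht ▸ hn _ (m0 t ht)
  have aφ : AntitoneOn φ (Icc 0 1) := fun s hs t ht q => by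
    rw [hφ s hs, hφ t ht]; exact (ax t (m0 t ht) s (by rwa [abs_of_nonneg hs.1])).2
  set a : W → ℝ≥0∞ := fun z => volume (Prod.mk z ⁻¹' H) with ha
  have ma : Measurable a := measurable_measure_prodMk_left mH
  have dia : ∀ z c, (∀ x y, (z, x) ∈ H → (z, y) ∈ H → x - y ≤ c) → a z ≤ ENNReal.ofReal c :=
    fun z c h => (Real.volume_le_diam _).trans (ediam_le_of_forall_dist_le fun x hx y hy => by
      rw [Real.dist_eq]; exact abs_le.2 ⟨by linarith [h y x hy hx], h x y hx hy⟩)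
  have a2 : ∀ z, a z ≤ ENNReal.ofReal 2 := fun z => dia z 2 fun x y hx hy => by
    have := hℓ.1 hx (hs _ hy) one_half_pos.le one_half_pos.le (add_halves 1)
    have := h2 (1 / 2 * x + 1 / 2 * -y) (by simpa using this)
    linarith
  set v : ℝ → ℝ≥0∞ := fun t => μ {z | ENNReal.ofReal (2 * t) < a z} with hv
  have av : Antitone v := fun s t q => measure_mono fun z hz =>
    lt_of_le_of_lt (ENNReal.ofReal_le_ofReal (by linarith)) hz
  have fv : v 0 ≠ ∞ := by
    refine ne_top_of_le_ne_top (hH.image continuous_fst).measure_lt_top.ne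
      (measure_mono fun z hz => ?_)
    obtain ⟨x, hx⟩ := nonempty_of_measure_ne_zero (ne_zero_of_lt hz.out)
    exact ⟨_, hx, rfl⟩
  set g : ℝ → ℝ → ℝ≥0∞ := fun l t =>
    (if l < φ t then ENNReal.ofReal ((1 - l / φ t) ^ k) else 0) * v t with hg
  have cone : ∀ l ∈ Ioi (0 : ℝ), 2 * ∫⁻ t in Ioo (0 : ℝ) 1, g l t ≤
      (μ.prod volume).restrict H {q | l ≤ ℓ q} := fun l hl => by
    have mS : MeasurableSet ({q | l ≤ ℓ q} ∩ H) := (measurableSet_le measurable_const mℓ).inter mH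
    rw [Measure.restrict_apply' mH, Measure.prod_apply mS]
    refine le_trans (mul_le_mul_right (setLIntegral_mono' measurableSet_Ioo fun t ht => ?_) _)
      (cake_le μ (measurable_measure_prodMk_left mS))
    simp only [hg]
    split_ifs with q
    swap
    · simp
    have t01 := Ioo_subset_Icc_self ht
    have p0 : 0 < φ t := lt_trans hl q
    have s0 : 0 ≤ l / φ t := (div_pos hl p0).le
    have s1 : 0 ≤ 1 - l / φ t := sub_nonneg.2 (div_le_one_of_le₀ q.le p0.le)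
    rw [hv, ← μ.addHaar_smul_of_nonneg s1]
    refine measure_mono ?_
    rintro _ ⟨z, hz, rfl⟩
    obtain ⟨x, y, hx, hy, hxy⟩ : ∃ x y, (z, x) ∈ H ∧ (z, y) ∈ H ∧ 2 * t < x - y := by
      by_contra! hh
      exact (dia z _ hh).not_gt hz
    have sub : Icc ((1 - l / φ t) * ((x + y) / 2) - t) ((1 - l / φ t) * ((x + y) / 2) + t) ⊆
        Prod.mk ((1 - l / φ t) • z) ⁻¹' ({q | l ≤ ℓ q} ∩ H) := fun b hb => by
      set u := b - (1 - l / φ t) * ((x + y) / 2) with hu
      have u1 : |u| ≤ t := abs_le.2 ⟨by linarith [hb.1], by linarith [hb.2]⟩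
      have c1 : ((z, (x + y) / 2 + u) : W × ℝ) ∈ H := by
        have cv : Convex ℝ (Prod.mk z ⁻¹' H) := fun a ha b hb r s hr hs hrs => by
          simpa [← add_smul, hrs] using hℓ.1 ha hb hr hs hrs
        exact cv.ordConnected.out hy hx
          ⟨by linarith [(abs_le.1 u1).1], by linarith [(abs_le.1 u1).2]⟩
      obtain ⟨c2, c3⟩ := ax t (m0 t t01) u u1
      have e : (1 - l / φ t) • ((z, (x + y) / 2 + u) : W × ℝ) + (l / φ t) • (0, u) =
          ((1 - l / φ t) • z, b) := by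
        ext
        · simp
        · simp only [Prod.snd_add, Prod.smul_snd, smul_eq_mul, hu]; ring
      refine ⟨?_, e ▸ hℓ.1 c1 c2 s1 s0 (by ring)⟩
      have c4 := hℓ.2 c1 c2 s1 s0 (by ring)
      rw [e, smul_eq_mul, smul_eq_mul] at c4
      rw [← hφ t t01] at c3
      have c5 := mul_le_mul_of_nonneg_left c3 s0
      rw [div_mul_cancel₀ _ p0.ne'] at c5
      exact le_trans (by linarith [mul_nonneg s1 (hn _ c1)]) c4
    refine le_trans (le_of_eq ?_) (measure_mono sub)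
    rw [Real.volume_Icc]; congr 1; ring
  have mg : Measurable (Function.uncurry g) :=
    (Measurable.ite (measurableSet_lt measurable_fst (cφ.measurable.comp measurable_snd))
      (by fun_prop) measurable_const).mul (av.measurable.comp measurable_snd)
  have low : 2 * ∫⁻ t in Ioo (0 : ℝ) 1, ENNReal.ofReal (φ t / (k + 1)) * v t ≤
      ∫⁻ q in H, ENNReal.ofReal (ℓ q) ∂μ.prod volume := by
    rw [lintegral_eq_lintegral_meas_le _ (ae_restrict_of_forall_mem mH hn) mℓ.aemeasurable]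
    refine le_trans (le_of_eq ?_) (setLIntegral_mono' measurableSet_Ioi cone)
    rw [lintegral_const_mul' _ _ (by simp), lintegral_lintegral_swap mg.aemeasurable]
    congr 1
    refine setLIntegral_congr_fun measurableSet_Ioo fun t ht => ?_
    simp only [hg]
    rw [lintegral_mul_const' _ _ (ne_top_of_le_ne_top fv (av ht.1.le)),
      cone_height k (nφ t (Ioo_subset_Icc_self ht))]
  have k0 : (0 : ℝ) < k + 1 := by positivity
  calc _ ≤ ENNReal.ofReal (∫ t in (0 : ℝ)..1, φ t) * (2 * ∫⁻ t in Ioo (0 : ℝ) 1, v t) := by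
        rw [Measure.prod_apply mH]; exact mul_le_mul_right (le_cake μ ma a2) _
    _ ≤ 2 * ∫⁻ t in Ioo (0 : ℝ) 1, ENNReal.ofReal (φ t) * v t := by
        rw [mul_left_comm]; exact mul_le_mul_right (cheb_enn cφ aφ nφ av fv) _
    _ = (k + 1) * (2 * ∫⁻ t in Ioo (0 : ℝ) 1, ENNReal.ofReal (φ t / (k + 1)) * v t) := by
        rw [mul_left_comm, ← lintegral_const_mul' (k + 1 : ℝ≥0∞) _ (by simp)]
        congr 1
        refine lintegral_congr fun t => ?_
        rw [← mul_assoc, show (k + 1 : ℝ≥0∞) = ENNReal.ofReal (k + 1) by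
          rw [ENNReal.ofReal_add (by positivity) zero_le_one]; simp,
          ← ENNReal.ofReal_mul k0.le, mul_div_cancel₀ _ k0.ne']
    _ ≤ _ := mul_le_mul_right low _

/-- the same in a Euclidean space, along a boundary point `p` -/
theorem mean_le {V : Type*} [NormedAddCommGroup V] [InnerProductSpace ℝ V] [FiniteDimensional ℝ V]
    [MeasurableSpace V] [BorelSpace V] (μ : Measure V) [μ.IsAddHaarMeasure] {k : ℕ}
    (hk : finrank ℝ V = k + 1) {H : Set V} {ℓ : V → ℝ} {φ : ℝ → ℝ} {p : V} (hp : p ≠ 0)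
    (hH : IsCompact H) (hℓ : ConcaveOn ℝ H ℓ) (hs : ∀ q ∈ H, -q ∈ H)
    (he : ∀ q ∈ H, ℓ (-q) = ℓ q) (hn : ∀ q ∈ H, 0 ≤ ℓ q) (mℓ : Measurable ℓ) (h1 : p ∈ H)
    (h2 : ∀ s : ℝ, s • p ∈ H → s ≤ 1) (cφ : Continuous φ)
    (hφ : ∀ t ∈ Icc (0 : ℝ) 1, φ t = ℓ (t • p)) :
    ENNReal.ofReal (∫ t in (0 : ℝ)..1, φ t) * μ H ≤
      (k + 1) * ∫⁻ q in H, ENNReal.ofReal (ℓ q) ∂μ := by
  obtain ⟨c, -, e1, -, e2⟩ := haar_transport (dec p hp) ((volume : Measure (ℝ ∙ p)ᗮ).prod volume) μ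
  have e0 : ∀ s : ℝ, dec p hp (0, s) = s • p := fun s => by simp [dec_apply]
  have := mean_prod (volume : Measure (ℝ ∙ p)ᗮ) (H := dec p hp ⁻¹' H) (ℓ := fun q => ℓ (dec p hp q))
    ((dec p hp).toHomeomorph.isCompact_preimage.2 hH)
    (hℓ.comp_linearMap (dec p hp : ((ℝ ∙ p)ᗮ × ℝ) →ₗ[ℝ] V))
    (fun q hq => by simpa using hs _ hq) (fun q hq => by simpa using he _ hq)
    (fun q hq => hn _ hq) (mℓ.comp (dec p hp).continuous.measurable)
    (by rw [mem_preimage, e0, one_smul]; exact h1) (fun s h => h2 s (by rwa [← e0])) cφ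
    fun t ht => by rw [hφ t ht, e0]
  rw [finrank_perp p hp hk] at this
  rw [e1, e2, mul_left_comm, mul_left_comm (k + 1 : ℝ≥0∞)]
  exact mul_le_mul_right this _

end Pool.Agent.MP_a32717_an.Sym
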