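import Pool.Agent.MP_a32717_an.Sym.Plate

/-! The lower bound: thin symmetric plates. -/

open MeasureTheory Set Metric Module Filter Topology
open scoped ENNReal NNReal RealInnerProductSpace

set_option linter.unusedSectionVars false

noncomputable section
namespace Pool.Agent.MP_a32717_an.Sym

lemma slab_bdd {V : Type*} [NormedAddCommGroup V] {h : V → ℝ} {L : ℝ≥0} (hL : LipschitzWith L h)
    (hb : Bornology.IsBounded {y | 0 < h y}) :
    Bornology.IsBounded {q : V × ℝ | |q.2| < h q.1} := by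
  obtain ⟨C, hC⟩ := (hL.isBounded_image hb).exists_norm_le
  refine (hb.prod (isBounded_Ioo (-C) C)).subset fun q hq => ?_
  have h0 : 0 < h q.1 := (abs_nonneg _).trans_lt hq
  have h1 := hC _ ⟨q.1, h0, rfl⟩
  rw [Real.norm_eq_abs, abs_of_pos h0] at h1
  exact ⟨h0, abs_lt.1 (lt_of_lt_of_le hq h1)⟩

lemma slab_integral {V : Type*} [NormedAddCommGroup V] [NormedSpace ℝ V] [FiniteDimensional ℝ V]
    [MeasurableSpace V] [BorelSpace V] (μ : Measure V) [μ.IsAddHaarMeasure] {h G : V → ℝ}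
    {L : ℝ≥0} (hL : LipschitzWith L h) (hG : Continuous G)
    (hb : Bornology.IsBounded {y | 0 < h y}) :
    ∫ q in {q : V × ℝ | |q.2| < h q.1}, G q.1 ∂(μ.prod volume) =
      ∫ y in {y | 0 < h y}, G y * (2 * h y) ∂μ := by
  have hc := hL.continuous
  have ho : MeasurableSet {q : V × ℝ | |q.2| < h q.1} :=
    (isOpen_lt (by fun_prop) (by fun_prop)).measurableSet
  have hi : IntegrableOn (fun q : V × ℝ => G q.1) {q : V × ℝ | |q.2| < h q.1} (μ.prod volume) :=
    integrableOn_bdd _ (by fun_prop) (slab_bdd hL hb)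
  rw [← integral_indicator ho, integral_prod _ ((integrable_indicator_iff ho).2 hi),
    ← integral_indicator (isOpen_lt continuous_const hc).measurableSet]
  refine integral_congr_ae (.of_forall fun y => ?_)
  have : (fun t : ℝ => {q : V × ℝ | |q.2| < h q.1}.indicator (fun q => G q.1) (y, t)) =
      (Ioo (-h y) (h y)).indicator fun _ => G y := by
    ext t; simp [indicator, abs_lt]
  simp only [this]
  rw [integral_indicator measurableSet_Ioo, setIntegral_const, Real.volume_real_Ioo]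
  by_cases hy : 0 < h y
  · rw [indicator_of_mem (by exact hy), max_eq_left (by linarith), smul_eq_mul]; ring
  · rw [indicator_of_notMem (by exact hy), max_eq_right (by linarith), zero_smul]

variable {E : Type*} [NormedAddCommGroup E] [InnerProductSpace ℝ E] [FiniteDimensional ℝ E]
  [MeasurableSpace E] [BorelSpace E]

lemma haar_perp (e : E) (he : e ≠ 0) {m : ℕ} (hm : finrank ℝ E = m + 1) :
    (μH[m] : Measure (ℝ ∙ e)ᗮ).IsAddHaarMeasure := by
  rw [← finrank_perp e he hm]; infer_instance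

lemma prj_measure_le (e : E) (m : ℕ) (S : Set E) :
    (μH[m] : Measure (ℝ ∙ e)ᗮ) (prj e '' S) ≤ μH[m] S := by
  simpa using (prj_lip e).hausdorffMeasure_image_le (d := m) (by positivity) S

/-- integrals over a Lipschitz graph -/
lemma graph_le (u : E) (hu : ‖u‖ = 1) (m : ℕ) {h : (ℝ ∙ u)ᗮ → ℝ} {L : ℝ≥0}
    (hL : LipschitzWith L h) (B : Set (ℝ ∙ u)ᗮ) (F : (ℝ ∙ u)ᗮ → ℝ≥0∞) (hF : Measurable F) :
    ∫⁻ x in (fun y : (ℝ ∙ u)ᗮ => (y : E) + h y • u) '' B, F (prj u x) ∂μH[m] ≤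
      ((1 + L : ℝ≥0) : ℝ≥0∞) ^ m * ∫⁻ y in B, F y ∂μH[m] := by
  have hγ : LipschitzWith (1 + L) fun y : (ℝ ∙ u)ᗮ => (y : E) + h y • u := by
    refine LipschitzWith.add (LipschitzWith.subtype_val _) ?_
    refine LipschitzWith.of_dist_le_mul fun a b => ?_
    rw [dist_eq_norm, ← sub_smul, norm_smul, hu, mul_one]
    exact hL.dist_le_mul a b
  have := push_le (μH[m].restrict ((fun y : (ℝ ∙ u)ᗮ => (y : E) + h y • u) '' B))
    (((1 + L : ℝ≥0) : ℝ≥0∞) ^ m • μH[m].restrict B) (prj u) (prj u).continuous.aemeasurable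
    (fun S hS => ?_) F hF
  · rwa [lintegral_smul_measure] at this
  · rw [Measure.restrict_apply ((prj u).continuous.measurable hS), Measure.smul_apply,
      Measure.restrict_apply hS, smul_eq_mul, ← ENNReal.rpow_natCast]
    refine le_trans (measure_mono ?_) (hγ.hausdorffMeasure_image_le (by positivity) (S ∩ B))
    rintro _ ⟨h1, y, hy, rfl⟩
    refine ⟨y, ⟨?_, hy⟩, rfl⟩
    simpa [prj_val, prj_self] using h1

theorem lens (u : E) (hu : ‖u‖ = 1) {m : ℕ} (hm : finrank ℝ E = m + 1) {c : ℝ} (hc : 0 ≤ c)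
    (hP : Plate (μH[m] : Measure (ℝ ∙ u)ᗮ) c) :
    ∃ (Ω : Set E) (f : E → ℝ), IsOpen Ω ∧ Bornology.IsBounded Ω ∧ Convex ℝ Ω ∧ Ω.Nonempty ∧
      (∀ x ∈ Ω, -x ∈ Ω) ∧ Continuous f ∧ (∀ x, 0 ≤ f x) ∧ ConvexOn ℝ univ f ∧
      c * ⨍ x in frontier Ω, f x ∂μH[m] < ⨍ x in Ω, f x := by
  obtain ⟨h, g, L, hL, hcv, he, h0, hb, gc, gv, g0, -, hlt⟩ := hP
  have hu0 : u ≠ 0 := by rintro rfl; simp at hu
  have := haar_perp u hu0 hm
  set μ : Measure (ℝ ∙ u)ᗮ := μH[m] with hμ
  set H : Set (ℝ ∙ u)ᗮ := {y | 0 < h y} with hH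
  have hc' := hL.continuous
  have Ho : IsOpen H := isOpen_lt continuous_const hc'
  have Hc : Convex ℝ H := by simpa using hcv.convex_gt 0
  have Hpos : 0 < μ.real H :=
    ENNReal.toReal_pos (Ho.measure_pos μ ⟨0, h0⟩).ne' hb.measure_lt_top.ne
  have Ih : 0 < ∫ y in H, h y ∂μ := by
    rw [setIntegral_pos_iff_support_of_nonneg_ae
      (ae_restrict_of_forall_mem Ho.measurableSet fun y hy => le_of_lt hy)
      (integrableOn_bdd μ hc' hb)]
    exact (hc'.isOpen_support.inter Ho).measure_pos μ ⟨0, h0.ne', h0⟩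
  have Ig : 0 ≤ ∫ y in H, g y ∂μ := integral_nonneg g0
  obtain ⟨η, hη, hηlt⟩ : ∃ η : ℝ≥0, 0 < η ∧
      (1 + η * L : ℝ) ^ m * (c * (∫ y in H, g y ∂μ) * (∫ y in H, h y ∂μ)) <
        μ.real H * ∫ y in H, g y * h y ∂μ := by
    have ht : Tendsto (fun η : ℝ≥0 => (1 + η * L : ℝ) ^ m *
        (c * (∫ y in H, g y ∂μ) * (∫ y in H, h y ∂μ))) (𝓝[>] 0)
        (𝓝 (c * (∫ y in H, g y ∂μ) * (∫ y in H, h y ∂μ))) := by
      refine tendsto_nhdsWithin_of_tendsto_nhds (Continuous.tendsto' (by fun_prop) _ _ (by simp))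
    exact ((ht.eventually (gt_mem_nhds hlt)).and self_mem_nhdsWithin).exists.imp
      fun η hη => ⟨hη.2, hη.1⟩
  have hη' : (0 : ℝ) < η := hη
  have hL1 : LipschitzWith (η * L) fun y => (η : ℝ) * h y := by
    simpa [Function.comp_def] using (lipschitzWith_smul (η : ℝ)).comp hL
  have hL2 : LipschitzWith (η * L) fun y => -((η : ℝ) * h y) := hL1.neg
  have hH' : {y | 0 < (η : ℝ) * h y} = H := by
    ext y; simp only [hH, mem_ofPred_eq, mul_pos_iff_of_pos_left hη']
  set Ω : Set E := {x | |⟪u, x⟫| < η * h (prj u x)} with hΩ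
  have c1 : Continuous fun x : E => |⟪u, x⟫| := by fun_prop
  have c2 : Continuous fun x : E => (η : ℝ) * h (prj u x) := by fun_prop
  have Ωo : IsOpen Ω := isOpen_lt c1 c2
  have hin : ∀ (y : (ℝ ∙ u)ᗮ) (t : ℝ), ⟪u, (y : E) + t • u⟫ = t := fun y t => by
    simp [inner_add_right, inner_smul_right, inner_perp, hu]
  have hpr : ∀ (y : (ℝ ∙ u)ᗮ) (t : ℝ), prj u ((y : E) + t • u) = y := fun y t =>
    prj_dec u hu0 (y, t)
  have hpre : dec u hu0 ⁻¹' Ω = {q | |q.2| < η * h q.1} := by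
    ext q; simp only [hΩ, mem_preimage, mem_ofPred_eq, dec_apply, hin, hpr]
  have Ωb : Bornology.IsBounded Ω := by
    rw [← image_preimage_eq Ω (dec u hu0).surjective, hpre]
    exact (dec u hu0).lipschitz.isBounded_image (slab_bdd hL1 (hH' ▸ hb))
  refine ⟨Ω, fun x => g (prj u x), Ωo, Ωb, ?_, ⟨0, by simpa [hΩ] using mul_pos hη' h0⟩,
    fun x hx => by simpa [hΩ, he] using hx, by fun_prop, fun x => g0 _,
    gv.comp_linearMap (prj u : E →ₗ[ℝ] (ℝ ∙ u)ᗮ), ?_⟩
  · have a1 : ConvexOn ℝ univ fun x : E => |⟪u, x⟫| :=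
      (convexOn_univ_norm (E := ℝ)).comp_linearMap (innerSL ℝ u : E →ₗ[ℝ] ℝ)
    have a2 : ConcaveOn ℝ univ fun x : E => (η : ℝ) * h (prj u x) :=
      (hcv.comp_linearMap (prj u : E →ₗ[ℝ] (ℝ ∙ u)ᗮ)).smul hη'.le
    simpa [hΩ] using (a1.sub a2).convex_lt 0
  obtain ⟨a, ha, -, hI, -⟩ := haar_transport (dec u hu0) (μ.prod volume) (volume : Measure E)
  have hap : (0 : ℝ) < a := by positivity
  have v1 : ∫ x in Ω, g (prj u x) = a * (2 * η * ∫ y in H, g y * h y ∂μ) := by
    rw [hI, hpre]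
    simp only [prj_dec]
    rw [slab_integral μ hL1 gc (hH' ▸ hb), hH',
      ← integral_const_mul (2 * (η : ℝ))]
    congr 1
    exact integral_congr_ae (.of_forall fun y => by ring)
  have v2 : volume.real Ω = a * (2 * η * ∫ y in H, h y ∂μ) := by
    have := hI Ω fun _ => 1
    rw [setIntegral_const, smul_eq_mul, mul_one, hpre] at this
    rw [this, slab_integral μ hL1 continuous_const (hH' ▸ hb), hH',
      ← integral_const_mul (2 * (η : ℝ))]
    congr 1
    exact integral_congr_ae (.of_forall fun y => by ring)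
  have hcl : closure H =ᵐ[μ] H := closure_ae_eq_of_null_frontier (Hc.addHaar_frontier μ)
  have fsub : frontier Ω ⊆ (fun y : (ℝ ∙ u)ᗮ => (y : E) + (η * h y) • u) '' closure H ∪
      (fun y : (ℝ ∙ u)ᗮ => (y : E) + (-(η * h y)) • u) '' closure H := by
    intro x hx
    have e1 : |⟪u, x⟫| = η * h (prj u x) := frontier_lt_subset_eq c1 c2 hx
    have e2 : prj u x ∈ closure H := by
      refine map_mem_closure (prj u).continuous (frontier_subset_closure hx) fun z hz => ?_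
      rw [← hH']; exact (abs_nonneg _).trans_lt hz.out
    have e3 : x = (prj u x : E) + ⟪u, x⟫ • u := by simp [prj_coe, hu]
    rcases le_total 0 ⟪u, x⟫ with p | p
    · exact Or.inl ⟨_, e2, by beta_reduce; rw [← e1, abs_of_nonneg p]; exact e3.symm⟩
    · exact Or.inr ⟨_, e2, by beta_reduce; rw [← e1, abs_of_nonpos p, neg_neg]; exact e3.symm⟩
  have up : ∀ F : (ℝ ∙ u)ᗮ → ℝ≥0∞, Measurable F → ∫⁻ x in frontier Ω, F (prj u x) ∂μH[m] ≤
      2 * (((1 + η * L : ℝ≥0) : ℝ≥0∞) ^ m * ∫⁻ y in H, F y ∂μ) := fun F hF => by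
    refine (lintegral_mono_set fsub).trans ((lintegral_union_le _ _ _).trans ?_)
    rw [two_mul, ← setLIntegral_congr hcl]
    exact add_le_add (graph_le u hu m hL1 _ F hF) (graph_le u hu m hL2 _ F hF)
  have fin : μH[m] (frontier Ω) ≠ ∞ := by
    have := up (fun _ => 1) measurable_const
    simp only [setLIntegral_one] at this
    exact ne_top_of_le_ne_top (ENNReal.mul_ne_top (by simp)
      (ENNReal.mul_ne_top (by finiteness) hb.measure_lt_top.ne)) this
  have mem : ∀ y ∈ H, ∀ s : ℝ, |s| = 1 → (y : E) + (s * (η * h y)) • u ∈ frontier Ω := by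
    intro y hy s hs
    have hp : 0 < η * h y := mul_pos hη' hy
    rw [Ωo.frontier_eq]
    refine ⟨?_, by simp [hΩ, hin, hpr, abs_mul, hs, abs_of_pos hp]⟩
    have ht : Tendsto (fun r : ℝ => (y : E) + (r * (s * (η * h y))) • u) (𝓝[<] 1)
        (𝓝 ((y : E) + (s * (η * h y)) • u)) :=
      tendsto_nhdsWithin_of_tendsto_nhds (Continuous.tendsto' (by fun_prop) _ _ (by simp))
    refine mem_closure_of_tendsto ht ?_
    filter_upwards [Ioo_mem_nhdsLT (zero_lt_one' ℝ)] with r hr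
    simp only [hΩ, mem_ofPred_eq, hin, hpr, abs_mul, hs, abs_of_pos hr.1, abs_of_pos hη',
      abs_of_pos hy.out, one_mul]
    nlinarith [hr.2]
  have low : 2 * μ H ≤ μH[m] (frontier Ω) := by
    have half : ∀ s : ℝ, |s| = 1 → μ H ≤ μH[m] (frontier Ω ∩ {x | 0 < s * ⟪u, x⟫}) := by
      intro s hs
      refine le_trans (measure_mono fun y hy => ?_) (prj_measure_le u m _)
      refine ⟨_, ⟨mem y hy s hs, ?_⟩, hpr _ _⟩
      have : s * s = 1 := by rw [← abs_mul_abs_self, hs, one_mul]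
      rw [mem_ofPred_eq, hin, ← mul_assoc, this, one_mul]
      exact mul_pos hη' hy
    have ms : MeasurableSet {x : E | 0 < 1 * ⟪u, x⟫} :=
      (isOpen_lt continuous_const (by fun_prop)).measurableSet
    rw [two_mul, ← measure_inter_add_sdiff (frontier Ω) ms]
    refine add_le_add (half 1 (by simp)) ((half (-1) (by simp)).trans (measure_mono ?_))
    rintro x ⟨a, b⟩
    simp only [mem_ofPred_eq] at b
    exact ⟨a, fun q => by simp only [mem_ofPred_eq] at q; linarith⟩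
  have low' : 2 * μ.real H ≤ μH[m].real (frontier Ω) := by
    have := ENNReal.toReal_mono fin low
    rwa [ENNReal.toReal_mul, ENNReal.toReal_ofNat] at this
  have up' : ∫ x in frontier Ω, g (prj u x) ∂μH[m] ≤
      2 * ((1 + η * L : ℝ) ^ m * ∫ y in H, g y ∂μ) := by
    have gi := integrableOn_bdd μ gc hb
    have := up (fun y => ENNReal.ofReal (g y)) (by fun_prop)
    rw [← ofReal_integral_eq_lintegral_ofReal gi (.of_forall g0)] at this
    rw [integral_eq_lintegral_of_nonneg_ae (.of_forall fun x => g0 _)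
      (Continuous.aestronglyMeasurable (by fun_prop))]
    refine (ENNReal.toReal_mono (by finiteness) this).trans_eq ?_
    rw [ENNReal.toReal_mul, ENNReal.toReal_mul, ENNReal.toReal_pow, ENNReal.coe_toReal,
      ENNReal.toReal_ofReal Ig]
    simp
  rw [setAverage_eq, setAverage_eq, v1, v2, smul_eq_mul, smul_eq_mul]
  have e1 : (μH[m].real (frontier Ω))⁻¹ * ∫ x in frontier Ω, g (prj u x) ∂μH[m] ≤
      (2 * μ.real H)⁻¹ * (2 * ((1 + η * L : ℝ) ^ m * ∫ y in H, g y ∂μ)) := by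
    have : 0 ≤ ∫ x in frontier Ω, g (prj u x) ∂μH[m] := integral_nonneg fun x => g0 _
    gcongr
  refine (mul_le_mul_of_nonneg_left e1 hc).trans_lt ?_
  have e2 : c * ((2 * μ.real H)⁻¹ * (2 * ((1 + η * L : ℝ) ^ m * ∫ y in H, g y ∂μ))) =
      (1 + η * L : ℝ) ^ m * (c * (∫ y in H, g y ∂μ) * (∫ y in H, h y ∂μ)) /
        (μ.real H * ∫ y in H, h y ∂μ) := by field_simp
  have e3 : (a * (2 * η * ∫ y in H, h y ∂μ))⁻¹ * (a * (2 * η * ∫ y in H, g y * h y ∂μ)) =
      (μ.real H * ∫ y in H, g y * h y ∂μ) / (μ.real H * ∫ y in H, h y ∂μ) := by field_simp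
  rw [e2, e3]
  gcongr

/-- For every `c < n - 1` a symmetric convex domain and a convex function with ratio above `c`. -/
theorem lower {n : ℕ} (hn : 2 ≤ n) {c : ℝ} (hc : c < n - 1) :
    ∃ (Ω : Set (EuclideanSpace ℝ (Fin n))) (f : EuclideanSpace ℝ (Fin n) → ℝ), IsOpen Ω ∧
      Bornology.IsBounded Ω ∧ Convex ℝ Ω ∧ Ω.Nonempty ∧ (∀ x ∈ Ω, -x ∈ Ω) ∧ Continuous f ∧
      (∀ x, 0 ≤ f x) ∧ ConvexOn ℝ univ f ∧
      c * ⨍ x in frontier Ω, f x ∂μH[(n : ℝ) - 1] < ⨍ x in Ω, f x := by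
  rcases lt_or_ge c 1 with h1 | h1
  · refine ⟨ball 0 1, fun _ => 1, isOpen_ball, isBounded_ball, convex_ball _ _,
      nonempty_ball.2 one_pos, fun x hx => by simpa using hx, continuous_const,
      fun _ => zero_le_one, convexOn_const _ convex_univ, ?_⟩
    rw [setAverage_const (measure_ball_pos _ _ one_pos).ne' measure_ball_lt_top.ne, setAverage_eq,
      setIntegral_const, smul_eq_mul, smul_eq_mul, mul_one]
    rcases eq_or_ne (μH[(n : ℝ) - 1].real (frontier (ball (0 : EuclideanSpace ℝ (Fin n)) 1))) 0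
      with q | q
    · simp [q]
    · rwa [inv_mul_cancel₀ q, mul_one]
  · have h3 : 3 ≤ n := by
      have : (2 : ℝ) < n := by linarith
      exact_mod_cast this
    obtain ⟨k, rfl⟩ : ∃ k, n = k + 3 := ⟨n - 3, by omega⟩
    have hu : ‖EuclideanSpace.single (0 : Fin (k + 3)) (1 : ℝ)‖ = 1 := by simp
    have hu0 : EuclideanSpace.single (0 : Fin (k + 3)) (1 : ℝ) ≠ 0 := by
      intro q; rw [q] at hu; simp at hu
    have hm : finrank ℝ (EuclideanSpace ℝ (Fin (k + 3))) = k + 2 + 1 := by simp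
    have := haar_perp _ hu0 hm
    have e : ((k + 3 : ℕ) : ℝ) - 1 = ((k + 2 : ℕ) : ℝ) := by push_cast; ring
    rw [e] at hc ⊢
    exact lens _ hu hm (by linarith) (plate_exists _ (finrank_perp _ hu0 hm) (by linarith)
      (by push_cast at hc; exact hc))

end Pool.Agent.MP_a32717_an.Sym
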