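import Pool.Agent.MP_a32717_an.Sym.Line

/-! The planar lemma. -/

open MeasureTheory Set intervalIntegral

noncomputable section
namespace Pool.Agent.MP_a32717_an.Sym

/-- the region between two graphs over the unit interval -/
def PP (τ β : ℝ → ℝ) : Set (ℝ × ℝ) := {p | p.1 ∈ Icc (0 : ℝ) 1 ∧ β p.1 ≤ p.2 ∧ p.2 ≤ τ p.1}

lemma central {U D B c a ft fb Φ : ℝ} (hB : 0 < B) (h1 : B ≤ U) (h2 : B ≤ D) (h3 : U ≤ 2 * c)
    (h4 : D ≤ 2 * c) (h5 : 2 * c ≤ U + D) (a0 : 0 ≤ a) (t0 : 0 ≤ ft) (b0 : 0 ≤ fb)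
    (h6 : (U + D) * a ≤ D * ft + U * fb) (h7 : Φ ≤ U * (a + ft) / 2 + D * (a + fb) / 2) :
    2 * B * (Φ - c * (ft + fb)) ≤ (U + D) * (U + D - 2 * c) * a := by
  wlog h : U ≤ D generalizing U D ft fb
  · have := this h2 h1 h4 h3 (by linarith) b0 t0 (by linarith) (by linarith) (by linarith)
    rwa [add_comm D U, add_comm fb ft] at this
  have r0 : 0 ≤ (U + D) * (U + D - 2 * c) * a :=
    mul_nonneg (mul_nonneg (by linarith) (by linarith)) a0
  rcases le_total (Φ - c * (ft + fb)) 0 with q | q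
  · exact (mul_nonpos_of_nonneg_of_nonpos (by linarith) q).trans r0
  have e1 := mul_le_mul_of_nonneg_right h1 q
  have e2 := mul_le_mul_of_nonneg_left h7 (hB.le.trans h1)
  have e3 := mul_le_mul_of_nonneg_left h6 (sub_nonneg.2 h4)
  have e4 : 0 ≤ (D - U) * (U + D - 2 * c) * ft :=
    mul_nonneg (mul_nonneg (by linarith) (by linarith)) t0
  linarith

lemma combo {s : Set (ℝ × ℝ)} {F : ℝ × ℝ → ℝ} (hF : ConvexOn ℝ s F) {p q : ℝ × ℝ} (hp : p ∈ s)
    (hq : q ∈ s) {a z b : ℝ} (h1 : a ≤ z) (h2 : z ≤ b) (h3 : a < b) {x y : ℝ}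
    (hx : (b - a) * x = (b - z) * p.1 + (z - a) * q.1)
    (hy : (b - a) * y = (b - z) * p.2 + (z - a) * q.2) :
    (x, y) ∈ s ∧ (b - a) * F (x, y) ≤ (b - z) * F p + (z - a) * F q := by
  have h0 : 0 < b - a := sub_pos.2 h3
  have u0 : 0 ≤ (b - z) / (b - a) := div_nonneg (sub_nonneg.2 h2) h0.le
  have v0 : 0 ≤ (z - a) / (b - a) := div_nonneg (sub_nonneg.2 h1) h0.le
  have uv : (b - z) / (b - a) + (z - a) / (b - a) = 1 := by field_simp; ring
  have e : ((b - z) / (b - a)) • p + ((z - a) / (b - a)) • q = (x, y) := by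
    ext
    · simp only [Prod.fst_add, Prod.smul_fst, smul_eq_mul]; field_simp; linarith
    · simp only [Prod.snd_add, Prod.smul_snd, smul_eq_mul]; field_simp; linarith
  refine ⟨e ▸ hF.1 hp hq u0 v0 uv, ?_⟩
  have := mul_le_mul_of_nonneg_left (hF.2 hp hq u0 v0 uv) h0.le
  rw [e] at this
  refine this.trans_eq ?_
  simp only [smul_eq_mul]; field_simp

variable {τ β w : ℝ → ℝ} {F : ℝ × ℝ → ℝ} {c : ℝ}

lemma vert (hF : ConvexOn ℝ (PP τ β) F) {r a z b : ℝ} (ha : (r, a) ∈ PP τ β) (hb : (r, b) ∈ PP τ β)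
    (h1 : a ≤ z) (h2 : z ≤ b) : (b - a) * F (r, z) ≤ (b - z) * F (r, a) + (z - a) * F (r, b) := by
  rcases (h1.trans h2).eq_or_lt with rfl | h
  · rw [le_antisymm h2 h1]; simp
  · exact (combo hF ha hb h1 h2 h (by ring) (by ring)).2

lemma chord (cF : Continuous F) (hF : ConvexOn ℝ (PP τ β) F) {r a b : ℝ} (ha : (r, a) ∈ PP τ β)
    (hb : (r, b) ∈ PP τ β) (h : a ≤ b) :
    ∫ t in a..b, F (r, t) ≤ (b - a) * (F (r, a) + F (r, b)) / 2 :=
  hh (φ := fun t => F (r, t)) h (by fun_prop) fun _ hz => vert hF ha hb hz.1 hz.2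

theorem planar (cτ : Continuous τ) (cβ : Continuous β) (cF : Continuous F) (cw : Continuous w)
    (hF : ConvexOn ℝ (PP τ β) F) (hle : ∀ r ∈ Icc (0 : ℝ) 1, β r ≤ τ r) (h0 : β 0 = -τ 0)
    (hmax : ∀ r ∈ Icc (0 : ℝ) 1, τ r - β r ≤ τ 0 - β 0) (F0 : F (0, 0) = 0)
    (Fnn : ∀ p ∈ PP τ β, 0 ≤ F p) (hc : ∫ r in (0 : ℝ)..1, (τ r - β r) ≤ 2 * c)
    (wm : MonotoneOn w (Icc 0 1)) (w0 : 0 ≤ w 0) :
    ∫ r in (0 : ℝ)..1, (∫ t in β r..τ r, F (r, t)) * w r ≤
      c * ∫ r in (0 : ℝ)..1, (F (r, τ r) + F (r, β r)) * w r := by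
  have mt : ∀ r ∈ Icc (0 : ℝ) 1, (r, τ r) ∈ PP τ β := fun r hr => ⟨hr, hle r hr, le_rfl⟩
  have mb : ∀ r ∈ Icc (0 : ℝ) 1, (r, β r) ∈ PP τ β := fun r hr => ⟨hr, le_rfl, hle r hr⟩
  have z01 : (0 : ℝ) ∈ Icc (0 : ℝ) 1 := ⟨le_rfl, zero_le_one⟩
  have wn : ∀ r ∈ Icc (0 : ℝ) 1, 0 ≤ w r := fun r hr => w0.trans (wm z01 hr hr.1)
  set Φ : ℝ → ℝ := fun r => ∫ t in β r..τ r, F (r, t) with hΦ
  set G : ℝ → ℝ := fun r => F (r, τ r) + F (r, β r) with hG
  set h : ℝ → ℝ := fun r => τ r - β r with hh'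
  have cG : Continuous G := by fun_prop
  have ch : Continuous h := by fun_prop
  have cΦ : Continuous Φ := by
    have cu : Continuous (Function.uncurry fun r t : ℝ => F (r, t)) := cF
    have : Φ = fun r => (∫ t in (0 : ℝ)..τ r, F (r, t)) - ∫ t in (0 : ℝ)..β r, F (r, t) := by
      ext r
      exact (integral_interval_sub_left (Continuous.intervalIntegrable (by fun_prop) _ _)
        (Continuous.intervalIntegrable (by fun_prop) _ _)).symm
    rw [this]
    exact (continuous_parametric_intervalIntegral_of_continuous cu cτ).sub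
      (continuous_parametric_intervalIntegral_of_continuous cu cβ)
  have Gn : ∀ r ∈ Icc (0 : ℝ) 1, 0 ≤ G r := fun r hr => add_nonneg (Fnn _ (mt r hr)) (Fnn _ (mb r hr))
  have outer : ∀ r ∈ Icc (0 : ℝ) 1, Φ r - c * G r ≤ -((2 * c - h r) * (G r / 2)) := fun r hr => by
    have := chord cF hF (mb r hr) (mt r hr) (hle r hr)
    simp only [hΦ, hG, hh']; linarith
  suffices ∫ r in (0 : ℝ)..1, (Φ r - c * G r) * w r ≤ 0 by
    simp only [sub_mul, mul_assoc] at this
    rw [integral_sub (Continuous.intervalIntegrable (by fun_prop) _ _)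
      (Continuous.intervalIntegrable (by fun_prop) _ _), intervalIntegral.integral_const_mul] at this
    linarith
  rcases le_or_gt (h 0) (2 * c) with big | big
  · refine (imono (g := fun _ => 0) zero_le_one (by fun_prop) (by fun_prop) fun r hr => ?_).trans
      (by simp)
    refine mul_nonpos_of_nonpos_of_nonneg ((outer r hr).trans (neg_nonpos.2 ?_)) (wn r hr)
    exact mul_nonneg (sub_nonneg.2 ((hmax r hr).trans big)) (by linarith [Gn r hr])
  have H : Prof h (2 * c) := ⟨ch, fun a r b a0 a1 a2 a3 => by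
    rcases (a1.trans a2).eq_or_lt with rfl | q
    · rw [le_antisymm a2 a1]; simp
    have q0 : 0 < b - a := sub_pos.2 q
    have ha : a ∈ Icc (0 : ℝ) 1 := ⟨a0, q.le.trans a3⟩
    have hb : b ∈ Icc (0 : ℝ) 1 := ⟨a0.trans q.le, a3⟩
    have e1 := (combo hF (mt a ha) (mt b hb) a1 a2 q (x := r) (by ring)
      (mul_div_cancel₀ _ q0.ne')).1.2.2
    have e2 := (combo hF (mb a ha) (mb b hb) a1 a2 q (x := r) (by ring)
      (mul_div_cancel₀ _ q0.ne')).1.2.1
    rw [div_le_iff₀ q0] at e1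
    rw [le_div_iff₀ q0] at e2
    simp only [hh'] at e1 e2 ⊢
    linarith, fun r hr => sub_nonneg.2 (hle r hr), hmax, hc, big⟩
  obtain ⟨t, ht, hM⟩ := H.cross
  have c0 : 0 < c := by linarith [H.pos]
  have sub : ∀ r ∈ Icc t 1, r ∈ Icc (0 : ℝ) 1 := fun r hr => ⟨ht.1.le.trans hr.1, hr.2⟩
  have t01 : t ∈ Icc (0 : ℝ) 1 := ⟨ht.1.le, ht.2.le⟩
  have d0 : ∀ r ∈ Icc t 1, 0 ≤ 2 * c - h r := fun r hr => by
    linarith [H.anti ht.1.le hr.1 hr.2]
  have D0 := H.dpos ht hM
  have cl : IsClosed (PP τ β) := (isClosed_Icc.preimage continuous_fst).inter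
    ((isClosed_le (cβ.comp continuous_fst) continuous_snd).inter
      (isClosed_le continuous_snd (cτ.comp continuous_fst)))
  set D := ∫ r in t..1, (2 * c - h r) with hD
  set R := D⁻¹ * ∫ r in t..1, (2 * c - h r) * r with hR
  set T := D⁻¹ * ∫ r in t..1, (2 * c - h r) * τ r with hT
  set S := D⁻¹ * ∫ r in t..1, (2 * c - h r) * β r with hS
  set Rm := ∫ r in t..1, (2 * c - h r) * (G r / 2) with hRm
  have cδ : Continuous fun r => 2 * c - h r := by fun_prop
  have m1 : (R, T) ∈ PP τ β := by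
    have := wmem hF.1 cl ht.2.le (γ := fun r => (r, τ r)) (by fun_prop) cδ d0
      (fun r hr => mt r (sub r hr)) D0
    rwa [ipair ht.2.le continuous_id' cτ cδ] at this
  have m2 : (R, S) ∈ PP τ β := by
    have := wmem hF.1 cl ht.2.le (γ := fun r => (r, β r)) (by fun_prop) cδ d0
      (fun r hr => mb r (sub r hr)) D0
    rwa [ipair ht.2.le continuous_id' cβ cδ] at this
  have m3 : D * F (R, (T + S) / 2) ≤ Rm := by
    have := wmem hF.convex_epigraph ((cl.preimage continuous_fst).inter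
      (isClosed_le (by fun_prop) continuous_snd)) ht.2.le
      (γ := fun r => ((r, (τ r + β r) / 2), G r / 2)) (by fun_prop) cδ d0 (fun r hr => by
        have := combo hF (mt r (sub r hr)) (mb r (sub r hr)) zero_le_one one_le_two two_pos
          (x := r) (y := (τ r + β r) / 2) (by ring) (by ring)
        exact ⟨this.1, by simp only [hG]; linarith [this.2]⟩) D0
    rw [ipair ht.2.le (by fun_prop) (by fun_prop) cδ, ipair ht.2.le continuous_id' (by fun_prop) cδ]
      at this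
    have e : ∫ r in t..1, (2 * c - h r) • ((τ r + β r) / 2) = ((∫ r in t..1, (2 * c - h r) * τ r) +
        ∫ r in t..1, (2 * c - h r) * β r) / 2 := by
      rw [← integral_add (Continuous.intervalIntegrable (by fun_prop) _ _)
        (Continuous.intervalIntegrable (by fun_prop) _ _), ← intervalIntegral.integral_div]
      exact integral_congr fun r _ => by simp only [smul_eq_mul]; ring
    have q : F (R, D⁻¹ * ∫ r in t..1, (2 * c - h r) • ((τ r + β r) / 2)) ≤ D⁻¹ * Rm := this.2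
    rw [e, le_inv_mul_iff₀ D0] at q
    rwa [show (T + S) / 2 = D⁻¹ * (((∫ r in t..1, (2 * c - h r) * τ r) +
      ∫ r in t..1, (2 * c - h r) * β r) / 2) by rw [hT, hS]; ring]
  have m4 : 2 * c / 3 ≤ T - S := by
    have q := H.sq ht hM
    have e : ∫ r in t..1, (2 * c - h r) * (2 * c - h r - 2 * (2 * c) / 3) = 2 * c / 3 * D -
        ((∫ r in t..1, (2 * c - h r) * τ r) - ∫ r in t..1, (2 * c - h r) * β r) := by
      rw [hD, ← intervalIntegral.integral_const_mul, ← intervalIntegral.integral_sub,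
        ← intervalIntegral.integral_sub]
      · exact integral_congr fun r _ => by simp only [hh']; ring
      all_goals exact Continuous.intervalIntegrable (by fun_prop) _ _
    rw [hT, hS, ← mul_sub, le_inv_mul_iff₀ D0]
    linarith
  have m5 : (2 + t) / 3 ≤ R := by
    rw [hR, le_inv_mul_iff₀ D0, mul_comm]; exact H.bary ht hM
  have R0 : 0 < R := by linarith [ht.1]
  have tR : t ≤ R := by linarith [ht.2]
  have τ0 : τ 0 = h 0 / 2 := by simp only [hh', h0]; ring
  have β0 : β 0 = -(h 0 / 2) := by rw [h0, τ0]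
  have o : ((0 : ℝ), (0 : ℝ)) ∈ PP τ β := ⟨z01, by simp only [β0]; linarith, by
    simp only [τ0]; linarith⟩
  have mid : (R, (T + S) / 2) ∈ PP τ β := ⟨m1.1, by linarith [m2.2.1], by linarith [m1.2.2]⟩
  have b0 := Fnn _ mid
  set Fb := F (R, (T + S) / 2) with hFb
  have pc : Continuous Prof.pp := by unfold Prof.pp; fun_prop
  have inner : ∀ r ∈ Icc 0 t, Φ r - c * G r ≤ (h r - 2 * c) * Prof.pp (r / t) * Fb := by
    intro r hr
    have r01 : r ∈ Icc (0 : ℝ) 1 := ⟨hr.1, hr.2.trans ht.2.le⟩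
    obtain ⟨g1, g2⟩ := H.gap ht hM m5 hr
    have x0 : 0 ≤ r / R := div_nonneg hr.1 R0.le
    have x1 : r / R ≤ 1 := (div_le_one R0).2 (hr.2.trans tR)
    have xr : r = r / R * R := (div_mul_cancel₀ _ R0.ne').symm
    set x := r / R with hx
    have k : ∀ p q y : ℝ, (0, p) ∈ PP τ β → (R, q) ∈ PP τ β → y = (1 - x) * p + x * q →
        (r, y) ∈ PP τ β ∧ F (r, y) ≤ (1 - x) * F (0, p) + x * F (R, q) := fun p q y a b e => by
      simpa using combo hF a b x0 x1 one_pos (x := r) (y := y) (by linarith) (by linarith)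
    have k1 := (k _ _ _ (mt 0 z01) m1 rfl).1.2.2
    have k2 := (k _ _ _ (mb 0 z01) m2 rfl).1.2.1
    obtain ⟨k3, k4⟩ := k _ _ _ o mid rfl
    rw [F0] at k4
    simp only [mul_zero, zero_add] at k3 k4
    simp only [τ0, β0] at k1 k2
    have hge : 2 * c ≤ h r := hM ▸ H.anti hr.1 hr.2 ht.2.le
    have xm := mul_le_mul_of_nonneg_left m4 x0
    set B := (1 - x) * (h 0 / 2) + x * (2 * c / 6) with hB
    have B0 : 0 < B := by nlinarith [mul_nonneg (sub_nonneg.2 x1) (sub_nonneg.2 big.le)]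
    set z := x * ((T + S) / 2) with hz
    have u1 : B ≤ τ r - z := by rw [hB, hz]; linarith
    have u2 : B ≤ z - β r := by rw [hB, hz]; linarith
    have hr' : h r = τ r - β r := rfl
    have key := central (c := c) (Φ := Φ r) B0 u1 u2 (by linarith) (by linarith) (by linarith)
      (Fnn _ k3) (Fnn _ (mt r r01)) (Fnn _ (mb r r01))
      (by linarith [vert hF (mb r r01) (mt r r01) k3.2.1 k3.2.2]) (by
        have a := chord cF hF (mb r r01) k3 k3.2.1
        have b := chord cF hF k3 (mt r r01) k3.2.2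
        have e := isplit (f := fun s => F (r, s)) (by fun_prop) (β r) z (τ r)
        simp only [hΦ]; linarith)
    rw [show τ r - z + (z - β r) = h r by linarith] at key
    refine le_of_mul_le_mul_left (key.trans ?_) (by linarith)
    have p1 : 0 ≤ h r - 2 * c := by linarith
    calc h r * (h r - 2 * c) * F (r, z) ≤ h r * (h r - 2 * c) * (x * Fb) :=
          mul_le_mul_of_nonneg_left k4 (mul_nonneg (by linarith) p1)
      _ = h r * x * ((h r - 2 * c) * Fb) := by ring
      _ ≤ 2 * B * Prof.pp (r / t) * ((h r - 2 * c) * Fb) :=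
          mul_le_mul_of_nonneg_right g2 (mul_nonneg p1 b0)
      _ = _ := by ring
  have i1 := imono (f := fun r => (Φ r - c * G r) * w r)
    (g := fun r => w t * Fb * ((h r - 2 * c) * Prof.pp (r / t))) ht.1.le (by fun_prop) (by fun_prop)
    fun r hr => by
      have r01 : r ∈ Icc (0 : ℝ) 1 := ⟨hr.1, hr.2.trans ht.2.le⟩
      have hge : 2 * c ≤ h r := hM ▸ H.anti hr.1 hr.2 ht.2.le
      have y0 : 0 ≤ r / t := div_nonneg hr.1 ht.1.le
      have p0 : 0 ≤ Prof.pp (r / t) := by unfold Prof.pp; positivity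
      calc _ ≤ (h r - 2 * c) * Prof.pp (r / t) * Fb * w r :=
            mul_le_mul_of_nonneg_right (inner r hr) (wn r r01)
        _ ≤ (h r - 2 * c) * Prof.pp (r / t) * Fb * w t :=
            mul_le_mul_of_nonneg_left (wm r01 t01 hr.2)
              (mul_nonneg (mul_nonneg (by linarith) p0) b0)
        _ = _ := by ring
  have i2 := imono (f := fun r => (Φ r - c * G r) * w r)
    (g := fun r => -w t * ((2 * c - h r) * (G r / 2))) ht.2.le (by fun_prop) (by fun_prop)
    fun r hr => by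
      have p0 : 0 ≤ (2 * c - h r) * (G r / 2) := mul_nonneg (d0 r hr) (by linarith [Gn r (sub r hr)])
      have a := mul_le_mul_of_nonneg_right (outer r (sub r hr)) (wn r (sub r hr))
      have b := mul_le_mul_of_nonneg_left (wm t01 (sub r hr) hr.1) p0
      linarith
  rw [intervalIntegral.integral_const_mul] at i1 i2
  have i3 := mul_le_mul_of_nonneg_left ((H.cheb ht hM).trans (H.excess ht hM))
    (mul_nonneg (wn t t01) b0)
  have i4 := mul_le_mul_of_nonneg_left m3 (wn t t01)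
  rw [isplit (by fun_prop) 0 t 1]
  linarith

end Pool.Agent.MP_a32717_an.Sym
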