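import Pool.Agent.MP_a32717_an.Sym.Top
import Pool.Agent.MP_a32717_an.Sym.Planar
import Pool.Agent.MP_a32717_an.Sym.Mean

/-! The inequality for one direction of projection. -/

open MeasureTheory Set Metric Module Filter Topology
open scoped ENNReal NNReal Pointwise

set_option linter.unusedSectionVars false

noncomputable section
namespace Pool.Agent.MP_a32717_an.Sym

lemma chord_cont {τ β : ℝ → ℝ} {F : ℝ × ℝ → ℝ} (cτ : Continuous τ) (cβ : Continuous β)
    (cF : Continuous F) : Continuous fun r => ∫ t in β r..τ r, F (r, t) := by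
  have cu : Continuous (Function.uncurry fun r t : ℝ => F (r, t)) := cF
  have : (fun r => ∫ t in β r..τ r, F (r, t)) =
      fun r => (∫ t in (0 : ℝ)..τ r, F (r, t)) - ∫ t in (0 : ℝ)..β r, F (r, t) := by
    ext r
    exact (intervalIntegral.integral_interval_sub_left
      (Continuous.intervalIntegrable (by fun_prop) _ _)
      (Continuous.intervalIntegrable (by fun_prop) _ _)).symm
  rw [this]
  exact (intervalIntegral.continuous_parametric_intervalIntegral_of_continuous cu cτ).sub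
    (intervalIntegral.continuous_parametric_intervalIntegral_of_continuous cu cβ)

lemma ofReal_int {g : ℝ → ℝ} {a b : ℝ} (h : a ≤ b) (cg : Continuous g) (hg : ∀ t ∈ Icc a b, 0 ≤ g t) :
    ENNReal.ofReal (∫ t in a..b, g t) = ∫⁻ t in Ioo a b, ENNReal.ofReal (g t) := by
  rw [intervalIntegral.integral_of_le h, integral_Ioc_eq_integral_Ioo,
    ofReal_integral_eq_lintegral_ofReal (cg.integrableOn_Icc.mono_set Ioo_subset_Icc_self)
      (ae_restrict_of_forall_mem measurableSet_Ioo fun t ht => hg t (Ioo_subset_Icc_self ht))]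

lemma exists_ray {V : Type*} [NormedAddCommGroup V] [NormedSpace ℝ V] {H : Set V} (hH : IsCompact H)
    (h0 : 0 ∈ interior H) {θ : V} (hθ : θ ≠ 0) :
    ∃ ρ : ℝ, 0 < ρ ∧ ρ • θ ∈ H ∧ ∀ s : ℝ, s • ρ • θ ∈ H → s ≤ 1 := by
  have h1 : IsCompact {r : ℝ | r • θ ∈ H} := (isClosedEmbedding_smul_left hθ).isCompact_preimage hH
  have h2 : ∀ᶠ r : ℝ in 𝓝 0, r • θ ∈ H := by
    have : ContinuousAt (fun r : ℝ => r • θ) 0 := by fun_prop
    exact this.eventually_mem (by simpa using mem_interior_iff_mem_nhds.1 h0)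
  obtain ⟨r, h3, h4⟩ := ((h2.filter_mono nhdsWithin_le_nhds).and
    (self_mem_nhdsWithin (s := Ioi (0 : ℝ)))).exists
  have h5 : 0 < sSup {r : ℝ | r • θ ∈ H} := lt_of_lt_of_le h4 (le_csSup h1.bddAbove h3)
  refine ⟨_, h5, h1.sSup_mem ⟨r, h3⟩, fun s hs => ?_⟩
  rw [smul_smul] at hs
  exact le_of_mul_le_mul_right ((le_csSup h1.bddAbove hs).trans_eq (one_mul _).symm) h5

theorem dir_le {V : Type*} [NormedAddCommGroup V] [InnerProductSpace ℝ V] [FiniteDimensional ℝ V]
    [MeasurableSpace V] [BorelSpace V] (μ : Measure V) [μ.IsAddHaarMeasure] {k : ℕ}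
    (hk : finrank ℝ V = k + 1) {K : Set (V × ℝ)} {f : V × ℝ → ℝ} (hK : IsCompact K)
    (hf : ConvexOn ℝ K f) (h0 : 0 ∈ interior K) (hs : ∀ q ∈ K, -q ∈ K) (cf : Continuous f)
    (fn : ∀ q ∈ K, 0 ≤ f q) (f0 : f 0 = 0) (fe : ∀ q, f (-q) = f q) :
    (∫⁻ q in K, ENNReal.ofReal (f q) ∂μ.prod volume) * μ (Prod.fst '' K) ≤
      (k + 1) * μ.prod volume K *
        ∫⁻ y in interior (Prod.fst '' K), ENNReal.ofReal (f (y, top K y)) ∂μ := by
  have : Nontrivial V := Module.nontrivial_of_finrank_pos (R := ℝ) (by omega)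
  have hc := hf.1
  have mK := hK.measurableSet
  set H := Prod.fst '' K with hH
  have Hk : IsCompact H := hK.image continuous_fst
  have Hc : Convex ℝ H := proj_convex hc
  have H0 : 0 ∈ interior H := zero_mem_interior_proj h0
  have Hs : ∀ y ∈ H, -y ∈ H := by rintro _ ⟨q, hq, rfl⟩; exact ⟨-q, hs q hq, rfl⟩
  have Hp : 0 < μ.real H := ENNReal.toReal_pos
    (Measure.measure_pos_of_nonempty_interior _ ⟨0, H0⟩).ne' Hk.measure_lt_top.ne
  have tc := top_concave hK hc
  have tle : ∀ y ∈ H, -top K (-y) ≤ top K y := fun y hy =>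
    le_top hK (by simpa using hs _ (top_mem hK (Hs y hy)))
  set Φ : V → ℝ≥0∞ := fun y => ∫⁻ t, K.indicator (fun q => ENNReal.ofReal (f q)) (y, t) with hΦ
  have mi : Measurable (K.indicator fun q => ENNReal.ofReal (f q)) :=
    Measurable.indicator (by fun_prop) mK
  have mΦ : Measurable Φ := mi.lintegral_prod_right'
  set T : V → ℝ≥0∞ := (interior H).indicator fun y => ENNReal.ofReal (f (y, top K y)) with hT
  have mT : Measurable T := by
    classical
    rw [hT, ← piecewise_eq_indicator]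
    exact ContinuousOn.measurable_piecewise (ENNReal.continuous_ofReal.comp_continuousOn
      (cf.comp_continuousOn (continuousOn_id.prodMk (top_contOn hK hc)))) continuousOn_const
      isOpen_interior.measurableSet
  set ℓ : V → ℝ := fun y => (volume (Prod.mk y ⁻¹' K)).toReal with hℓ
  have eℓ : ∀ y ∈ H, ℓ y = top K y + top K (-y) := fun y hy => by
    have : Prod.mk y ⁻¹' K = _ := fib_eq hK hc hs hy
    simp only [hℓ, this, Real.volume_Icc]
    rw [ENNReal.toReal_ofReal (sub_nonneg.2 (tle y hy)), sub_neg_eq_add]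
  have cℓ : ConcaveOn ℝ H ℓ := ⟨Hc, fun x hx y hy a b ha hb hab => by
    have e1 := tc.2 hx hy ha hb hab
    have e2 := tc.2 (Hs x hx) (Hs y hy) ha hb hab
    rw [smul_neg, smul_neg, ← neg_add] at e2
    rw [eℓ x hx, eℓ y hy, eℓ _ (Hc hx hy ha hb hab)]
    simp only [smul_eq_mul] at e1 e2 ⊢
    linarith⟩
  have Kf : μ.prod volume K ≠ ∞ := hK.measure_lt_top.ne
  have iℓ : ∫⁻ y in H, ENNReal.ofReal (ℓ y) ∂μ ≤ μ.prod volume K := by
    rw [Measure.prod_apply mK]
    exact (setLIntegral_le_lintegral _ _).trans (lintegral_mono fun y => ENNReal.ofReal_toReal_le)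
  set c : ℝ := (k + 1) * (μ.prod volume K).toReal / (2 * μ.real H) with hcc
  have c0 : 0 ≤ c := by positivity
  have key := polar_le μ Φ (fun y => T y + T (-y)) mΦ (mT.add (mT.comp measurable_neg))
    (ENNReal.ofReal c) ENNReal.ofReal_ne_top fun θ hθ => ?_
  · rw [lintegral_add_left mT, lintegral_neg_eq_self T, ← two_mul, hT,
      lintegral_indicator isOpen_interior.measurableSet, ← lintegral_prod _ mi.aemeasurable,
      lintegral_indicator mK] at key
    refine (mul_le_mul_left key _).trans_eq ?_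
    have e : ENNReal.ofReal c * 2 * μ H = (k + 1) * μ.prod volume K := by
      rw [← ENNReal.ofReal_toReal Hk.measure_lt_top.ne, ← ENNReal.ofReal_toReal Kf,
        ← ENNReal.ofReal_ofNat, ← ENNReal.ofReal_mul c0, ← ENNReal.ofReal_mul (by positivity),
        show (k + 1 : ℝ≥0∞) = ENNReal.ofReal (k + 1) by
          rw [ENNReal.ofReal_add (by positivity) zero_le_one]; simp,
        ← ENNReal.ofReal_mul (by positivity), hcc]
      congr 1
      have := Hp.ne'
      rw [Measure.real] at this ⊢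
      field_simp
    rw [← e]; ring
  obtain ⟨ρ, ρ0, hp, hmax⟩ := exists_ray Hk H0 (θ := θ) (by rintro rfl; simp at hθ)
  refine ⟨ρ, ρ0, ?_⟩
  have p0 : ρ • θ ≠ 0 := smul_ne_zero ρ0.ne' (by rintro rfl; simp at hθ)
  set p := ρ • θ
  rw [hk, Nat.add_sub_cancel]
  have rm : ∀ r ∈ Icc (0 : ℝ) 1, r • p ∈ H := fun r hr =>
    Hc.smul_mem_of_zero_mem (interior_subset H0) hp hr
  set cl : ℝ → ℝ := fun r => projIcc 0 1 zero_le_one r with hcl
  have cc : Continuous cl := continuous_subtype_val.comp continuous_projIcc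
  have cm : ∀ r, cl r ∈ Icc (0 : ℝ) 1 := fun r => (projIcc 0 1 zero_le_one r).2
  have ci : ∀ r ∈ Icc (0 : ℝ) 1, cl r = r := fun r hr => by simp only [hcl, projIcc_of_mem _ hr]
  set τ : ℝ → ℝ := fun r => top K (cl r • p) with hτ
  set β : ℝ → ℝ := fun r => -top K (cl r • -p) with hβ
  have cτ : Continuous τ := (top_ray hK hc h0 hp).comp_continuous cc cm
  have cβ : Continuous β := ((top_ray hK hc h0 (Hs p hp)).comp_continuous cc cm).neg
  have eτ : ∀ r ∈ Icc (0 : ℝ) 1, τ r = top K (r • p) := fun r hr => by simp only [hτ, ci r hr]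
  have eβ : ∀ r ∈ Icc (0 : ℝ) 1, β r = -top K (-(r • p)) := fun r hr => by
    simp only [hβ, ci r hr, smul_neg]
  have fib : ∀ r ∈ Icc (0 : ℝ) 1, {t | (r • p, t) ∈ K} = Icc (β r) (τ r) := fun r hr => by
    rw [eτ r hr, eβ r hr]; exact fib_eq hK hc hs (rm r hr)
  have hle : ∀ r ∈ Icc (0 : ℝ) 1, β r ≤ τ r := fun r hr => by
    rw [eτ r hr, eβ r hr]; exact tle _ (rm r hr)
  set L : ℝ × ℝ →ₗ[ℝ] V × ℝ := (LinearMap.toSpanSingleton ℝ V p).prodMap LinearMap.id with hL
  have eP : PP τ β = L ⁻¹' K ∩ Icc 0 1 ×ˢ univ := by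
    ext q
    exact ⟨fun h => ⟨((fib _ h.1).symm.subset h.2 :), h.1, trivial⟩,
      fun h => ⟨h.2.1, (fib _ h.2.1).subset h.1⟩⟩
  have cF : Continuous fun q : ℝ × ℝ => f (q.1 • p, q.2) := by fun_prop
  have vF : ConvexOn ℝ (PP τ β) fun q : ℝ × ℝ => f (q.1 • p, q.2) := by
    rw [eP]
    exact (hf.comp_linearMap L).subset inter_subset_left
      ((hc.linear_preimage L).inter ((convex_Icc _ _).prod convex_univ))
  have nF : ∀ q ∈ PP τ β, 0 ≤ f (q.1 • p, q.2) := fun q hq => fn _ (eP.subset hq).1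
  have z : (0 : ℝ) ∈ Icc (0 : ℝ) 1 := ⟨le_rfl, zero_le_one⟩
  have hm := (mean_le μ hk (φ := fun r => τ r - β r) p0 Hk cℓ Hs (fun q hq => by
      rw [eℓ _ (Hs q hq), eℓ q hq, neg_neg, add_comm]) (fun q _ => ENNReal.toReal_nonneg)
    (measurable_measure_prodMk_left mK).ennreal_toReal hp hmax (cτ.sub cβ) fun t ht => by
      rw [eℓ _ (rm t ht), eτ t ht, eβ t ht, sub_neg_eq_add]).trans (mul_le_mul_right iℓ _)
  have hm' : ∫ r in (0 : ℝ)..1, (τ r - β r) ≤ 2 * c := by
    have := ENNReal.toReal_mono (ENNReal.mul_ne_top (by simp) Kf) hm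
    rw [ENNReal.toReal_mul, ENNReal.toReal_mul, ENNReal.toReal_ofReal
      (intervalIntegral.integral_nonneg zero_le_one fun r hr => sub_nonneg.2 (hle r hr)),
      ENNReal.toReal_add (by simp) (by simp), ENNReal.toReal_natCast, ENNReal.toReal_one] at this
    rw [hcc, ← mul_div_assoc, mul_div_mul_left _ _ two_ne_zero, le_div_iff₀ Hp]
    exact this
  have pl := planar (w := fun r => r ^ k) cτ cβ cF (by fun_prop) vF hle
    (by rw [eτ 0 z, eβ 0 z, zero_smul, neg_zero]) (fun r hr => by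
      have := tc.2 (rm r hr) (Hs _ (rm r hr)) one_half_pos.le one_half_pos.le (add_halves 1)
      rw [smul_neg, add_neg_cancel, smul_eq_mul, smul_eq_mul] at this
      rw [eτ r hr, eβ r hr, eτ 0 z, eβ 0 z, zero_smul, neg_zero]
      linarith) (by simp only [zero_smul]; exact f0) nF hm' (fun a ha b _ q => pow_le_pow_left₀ ha.1 q k)
    (by positivity)
  have nt : ∀ r ∈ Icc (0 : ℝ) 1, 0 ≤ f (r • p, τ r) := fun r hr =>
    nF (r, τ r) ⟨hr, hle r hr, le_rfl⟩
  have nb : ∀ r ∈ Icc (0 : ℝ) 1, 0 ≤ f (r • p, β r) := fun r hr =>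
    nF (r, β r) ⟨hr, le_rfl, hle r hr⟩
  have nΦ : ∀ r ∈ Icc (0 : ℝ) 1, 0 ≤ ∫ t in β r..τ r, f (r • p, t) := fun r hr =>
    intervalIntegral.integral_nonneg (hle r hr) fun t ht => nF (r, t) ⟨hr, ht⟩
  have pl' := ENNReal.ofReal_le_ofReal pl
  have cΦ : Continuous fun r => (∫ t in β r..τ r, f (r • p, t)) * r ^ k :=
    (chord_cont cτ cβ cF).mul (by fun_prop)
  simp only at pl'
  rw [ENNReal.ofReal_mul c0, ofReal_int zero_le_one cΦ
    (fun r hr => mul_nonneg (nΦ r hr) (pow_nonneg hr.1 k)), ofReal_int zero_le_one (by fun_prop)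
    (fun r hr => mul_nonneg (add_nonneg (nt r hr) (nb r hr)) (pow_nonneg hr.1 k))] at pl'
  calc _ = ∫⁻ s in Ioo (0 : ℝ) 1, ENNReal.ofReal (s ^ k) * Φ (s • p) := by
        rw [← Ioc_union_Ioi_eq_Ioi zero_le_one, lintegral_union measurableSet_Ioi
          (Ioc_disjoint_Ioi le_rfl), setLIntegral_congr Ioo_ae_eq_Ioc,
          setLIntegral_congr_fun (g := fun _ => 0) measurableSet_Ioi fun s hs' => ?_]
        · simp
        have : ∀ t, (s • p, t) ∉ K := fun t ht => (hmax s ⟨_, ht, rfl⟩).not_gt hs'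
        simp [hΦ, this]
    _ = _ := setLIntegral_congr_fun measurableSet_Ioo fun s hs' => by
        have s01 := Ioo_subset_Icc_self hs'
        have e : (fun t => K.indicator (fun q => ENNReal.ofReal (f q)) (s • p, t)) =
            (Icc (β s) (τ s)).indicator fun t => ENNReal.ofReal (f (s • p, t)) := by
          rw [← fib s s01]; ext t; simp [indicator]
        simp only [hΦ, e]
        rw [ENNReal.ofReal_mul (nΦ s s01), mul_comm, lintegral_indicator measurableSet_Icc,
          ofReal_int (hle s s01) (by fun_prop) (fun t ht => nF (s, t) ⟨s01, ht⟩),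
          setLIntegral_congr Ioo_ae_eq_Icc]
    _ ≤ _ := pl'
    _ ≤ _ := by
        refine mul_le_mul_right (le_trans (le_of_eq (setLIntegral_congr_fun measurableSet_Ioo
          fun s hs' => ?_)) (lintegral_mono_set Ioo_subset_Ioi_self)) _
        have s01 := Ioo_subset_Icc_self hs'
        have i1 := smul_mem_int Hc H0 hp s01.1 hs'.2
        have i2 := smul_mem_int Hc H0 (Hs p hp) s01.1 hs'.2
        rw [smul_neg] at i2
        simp only [hT, indicator_of_mem i1, indicator_of_mem i2]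
        rw [ENNReal.ofReal_mul (add_nonneg (nt s s01) (nb s s01)), mul_comm,
          ENNReal.ofReal_add (nt s s01) (nb s s01), eτ s s01, eβ s s01,
          ← fe (s • p, -top K (-(s • p)))]
        simp

end Pool.Agent.MP_a32717_an.Sym
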