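import Pool.Agent.MP_a32717_an.Sym.Cauchy
import Pool.Agent.MP_a32717_an.Sym.Dir

/-! The upper bound `n - 1` on centrally symmetric convex domains. -/

open MeasureTheory Set Metric Module Filter Topology
open scoped ENNReal NNReal

set_option linter.unusedSectionVars false

noncomputable section
namespace Pool.Agent.MP_a32717_an.Sym

variable {E : Type*} [NormedAddCommGroup E] [InnerProductSpace ℝ E] [FiniteDimensional ℝ E]
  [MeasurableSpace E] [BorelSpace E] {k : ℕ}

theorem upper_even (hk : finrank ℝ E = k + 1 + 1) {K : Set E} {g : E → ℝ} (hK : IsCompact K)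
    (hg : ConvexOn ℝ K g) (h0 : 0 ∈ interior K) (hs : ∀ x ∈ K, -x ∈ K) (cg : Continuous g)
    (gn : ∀ x ∈ K, 0 ≤ g x) (g0 : g 0 = 0) (ge : ∀ x, g (-x) = g x) :
    (∫⁻ x in K, ENNReal.ofReal (g x)) * μH[((k + 1 : ℕ) : ℝ)] (frontier K) ≤
      ((k + 1) * volume K) * ∫⁻ x in frontier K, ENNReal.ofReal (g x) ∂μH[((k + 1 : ℕ) : ℝ)] := by
  refine cauchy hk hK hg.1 h0 _ (by fun_prop) _ _ fun e he => ?_
  have := haar_perp e he hk
  obtain ⟨c, -, c1, -, c2⟩ := haar_transport (dec e he)
    ((μH[((k + 1 : ℕ) : ℝ)] : Measure (ℝ ∙ e)ᗮ).prod volume) (volume : Measure E)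
  have h := dir_le (μH[((k + 1 : ℕ) : ℝ)] : Measure (ℝ ∙ e)ᗮ) (finrank_perp e he hk)
    (f := fun q => g (dec e he q)) (pre_compact he hK)
    (hg.comp_linearMap (dec e he : ((ℝ ∙ e)ᗮ × ℝ) →ₗ[ℝ] E)) (pre_zero he h0)
    (fun q hq => by simpa using hs _ hq) (by fun_prop) (fun q hq => gn _ hq) (by simpa using g0)
    (fun q => by rw [map_neg, ge])
  rw [proj_eq] at h
  rw [c1, c2, mul_assoc]
  refine (mul_le_mul_right h _).trans_eq ?_
  ring

lemma intOn {μ : Measure E} {S : Set E} (hS : IsCompact S) (fin : μ S ≠ ∞) {F : E → ℝ}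
    (cF : Continuous F) : IntegrableOn F S μ := by
  obtain ⟨M, hM⟩ := hS.exists_bound_of_continuousOn cF.continuousOn
  exact Measure.integrableOn_of_bounded fin cF.aestronglyMeasurable
    (ae_restrict_of_forall_mem hS.measurableSet hM)

lemma int_even {μ : Measure E} (hμ : MeasurePreserving (fun x : E => -x) μ μ) {S : Set E}
    (hS : IsCompact S) (hs : ∀ x ∈ S, -x ∈ S) (fin : μ S ≠ ∞) {F : E → ℝ} (cF : Continuous F)
    (hn : ∀ x ∈ S, 0 ≤ (F x + F (-x)) / 2 - F 0) :
    ∫⁻ x in S, ENNReal.ofReal ((F x + F (-x)) / 2 - F 0) ∂μ =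
      ENNReal.ofReal (∫ x in S, F x ∂μ - μ.real S * F 0) ∧ 0 ≤ ∫ x in S, F x ∂μ - μ.real S * F 0 := by
  have h1 := hμ.setIntegral_preimage_emb (Homeomorph.neg E).measurableEmbedding F S
  rw [show (fun x : E => -x) ⁻¹' S = S from
    Subset.antisymm (fun x hx => by simpa using hs _ hx) hs] at h1
  have i1 := intOn hS fin cF
  have i2 := intOn hS fin (F := fun x => F (-x)) (by fun_prop)
  have e : ∫ x in S, ((F x + F (-x)) / 2 - F 0) ∂μ = ∫ x in S, F x ∂μ - μ.real S * F 0 := by
    rw [integral_sub (intOn hS fin (by fun_prop)) (intOn hS fin continuous_const), integral_div,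
      integral_add i1 i2, h1, setIntegral_const, smul_eq_mul]
    ring
  rw [← e]
  exact ⟨(ofReal_integral_eq_lintegral_ofReal (intOn hS fin (by fun_prop))
    (ae_restrict_of_forall_mem hS.measurableSet hn)).symm, setIntegral_nonneg hS.measurableSet hn⟩

theorem upper_zero (hk : finrank ℝ E = k + 1 + 1) {K : Set E} {F : E → ℝ} (hK : IsCompact K)
    (hF : ConvexOn ℝ K F) (h0 : 0 ∈ interior K) (hs : ∀ x ∈ K, -x ∈ K) (cF : Continuous F) :
    (⨍ x in K, F x) + k * F 0 ≤ (k + 1) * ⨍ x in frontier K, F x ∂μH[((k + 1 : ℕ) : ℝ)] := by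
  have gn : ∀ x ∈ K, 0 ≤ (F x + F (-x)) / 2 - F 0 := fun x hx => by
    have := hF.2 hx (hs x hx) one_half_pos.le one_half_pos.le (add_halves 1)
    rw [smul_neg, add_neg_cancel, smul_eq_mul, smul_eq_mul] at this
    linarith
  have h := upper_even hk (g := fun x => (F x + F (-x)) / 2 - F 0) hK ⟨hF.1,
    fun x hx y hy a b ha hb hab => by
      have e1 := hF.2 hx hy ha hb hab
      have e2 := hF.2 (hs x hx) (hs y hy) ha hb hab
      rw [smul_neg, smul_neg, ← neg_add] at e2
      simp only [smul_eq_mul] at e1 e2 ⊢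
      have : F 0 = a * F 0 + b * F 0 := by rw [← add_mul, hab, one_mul]
      linarith⟩ h0 hs (by fun_prop) gn (by simp) (fun x => by rw [neg_neg, add_comm])
  have fK : IsCompact (frontier K) := hK.of_isClosed_subset isClosed_frontier hK.isClosed.frontier_subset
  have fs : ∀ x ∈ frontier K, -x ∈ frontier K := fun x hx => by
    have e := (Homeomorph.neg E).preimage_frontier K
    rw [show (Homeomorph.neg E) ⁻¹' K = K from
      Subset.antisymm (fun x hx => by simpa using hs _ hx) hs] at e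
    exact e.symm.subset hx
  have f1 := frontier_fin hk hK hF.1 h0
  have f2 := ENNReal.toReal_pos (frontier_pos hk hK h0) f1
  have v1 : volume K ≠ ∞ := hK.measure_lt_top.ne
  have v2 := ENNReal.toReal_pos (Measure.measure_pos_of_nonempty_interior volume ⟨0, h0⟩).ne' v1
  obtain ⟨a1, a2⟩ := int_even (Measure.measurePreserving_neg volume) hK hs v1 cF gn
  obtain ⟨b1, b2⟩ := int_even ((LinearIsometryEquiv.neg ℝ (E := E)).toIsometryEquiv
    |>.measurePreserving_hausdorffMeasure ((k + 1 : ℕ) : ℝ)) fK fs f1 cF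
    fun x hx => gn x (hK.isClosed.frontier_subset hx)
  rw [a1, b1] at h
  have h' := ENNReal.toReal_mono (ENNReal.mul_ne_top (ENNReal.mul_ne_top (by simp) v1) (by simp)) h
  rw [ENNReal.toReal_mul, ENNReal.toReal_mul, ENNReal.toReal_mul, ENNReal.toReal_ofReal a2,
    ENNReal.toReal_ofReal b2, ENNReal.toReal_add (by simp) (by simp), ENNReal.toReal_natCast,
    ENNReal.toReal_one] at h'
  rw [setAverage_eq, setAverage_eq, smul_eq_mul, smul_eq_mul]
  simp only [Measure.real] at h' ⊢
  set v := (volume K).toReal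
  set s := (μH[((k + 1 : ℕ) : ℝ)] (frontier K)).toReal
  refine le_of_mul_le_mul_right ?_ (mul_pos v2 f2)
  have e1 : ∀ A : ℝ, (v⁻¹ * A + k * F 0) * (v * s) = A * s + k * F 0 * (v * s) := fun A => by
    field_simp
  have e2 : ∀ B : ℝ, (k + 1) * (s⁻¹ * B) * (v * s) = (k + 1) * v * B := fun B => by
    field_simp
  rw [e1, e2]
  linarith

lemma avg_shift {μ : Measure E} {p : E} (hμ : MeasurePreserving (fun x : E => p + x) μ μ)
    (S : Set E) (F : E → ℝ) :
    ⨍ x in (fun x => p + x) ⁻¹' S, F (p + x) ∂μ = ⨍ x in S, F x ∂μ := by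
  have m := (Homeomorph.addLeft p).measurableEmbedding
  rw [setAverage_eq, setAverage_eq, hμ.setIntegral_preimage_emb m, Measure.real, Measure.real,
    hμ.measure_preimage_emb m]

lemma convexOn_closure {Ω : Set E} {F : E → ℝ} (hF : ConvexOn ℝ Ω F) (cF : Continuous F) :
    ConvexOn ℝ (closure Ω) F := by
  refine ⟨hF.1.closure, fun x hx y hy a b ha hb hab => ?_⟩
  have : (x, y) ∈ closure (Ω ×ˢ Ω) := by rw [closure_prod_eq]; exact ⟨hx, hy⟩
  exact closure_minimal (t := {q : E × E | F (a • q.1 + b • q.2) ≤ a • F q.1 + b • F q.2})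
    (fun q hq => hF.2 hq.1 hq.2 ha hb hab) (isClosed_le (by fun_prop) (by fun_prop)) this

theorem upper (hk : finrank ℝ E = k + 1 + 1) {Ω : Set E} {f : E → ℝ} {p : E} (ho : IsOpen Ω)
    (hb : Bornology.IsBounded Ω) (hne : Ω.Nonempty) (hs : ∀ x, p + x ∈ Ω → p - x ∈ Ω)
    (cf : ContinuousOn f (closure Ω)) (hf : ConvexOn ℝ Ω f) :
    p ∈ Ω ∧ (⨍ x in Ω, f x) + k * f p ≤
      (k + 1) * ⨍ x in frontier Ω, f x ∂μH[((k + 1 : ℕ) : ℝ)] := by
  have hp : p ∈ Ω := by
    obtain ⟨x, hx⟩ := hne
    have := hf.1 hx (hs (x - p) (by simpa using hx)) one_half_pos.le one_half_pos.le (add_halves 1)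
    convert this using 1
    module
  refine ⟨hp, ?_⟩
  obtain ⟨F, hF⟩ := ContinuousMap.exists_restrict_eq isClosed_closure
    (⟨_, cf.domRestrict⟩ : C(closure Ω, ℝ))
  have eF : ∀ x ∈ closure Ω, F x = f x := fun x hx => DFunLike.congr_fun hF ⟨x, hx⟩
  have vF : ConvexOn ℝ (closure Ω) F :=
    convexOn_closure (hf.congr fun x hx => (eF x (subset_closure hx)).symm) F.continuous
  have fr : frontier (closure Ω) = frontier Ω := by
    rw [frontier, frontier, closure_closure,
      hf.1.interior_closure_eq_interior_of_nonempty_interior (by rwa [ho.interior_eq])]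
  have h := upper_zero hk (K := (fun x => p + x) ⁻¹' closure Ω) (F := fun x => F (p + x))
    ((Homeomorph.addLeft p).isCompact_preimage.2 hb.isCompact_closure) (vF.translate_right p)
    (preimage_interior_subset_interior_preimage (by fun_prop)
      (by simpa using interior_mono subset_closure (ho.interior_eq.symm.subset hp)))
    (fun x hx => by
      have := map_mem_closure (f := fun y => p - (y - p)) (by fun_prop) hx
        fun y hy => hs (y - p) (by simpa using hy)
      simpa [sub_eq_add_neg] using this) (by fun_prop)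
  rw [show frontier ((fun x => p + x) ⁻¹' closure Ω) = (fun x => p + x) ⁻¹' frontier (closure Ω) from
    ((Homeomorph.addLeft p).preimage_frontier _).symm, fr,
    avg_shift (measurePreserving_add_left volume p) _ F,
    avg_shift (p := p) ((IsometryEquiv.addLeft p).measurePreserving_hausdorffMeasure _) _ F,
    setAverage_congr (closure_ae_eq_of_null_frontier (hf.1.addHaar_frontier volume)), add_zero,
    eF p (subset_closure hp),
    setAverage_congr_fun ho.measurableSet (ae_of_all _ fun x hx => eF x (subset_closure hx)),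
    setAverage_congr_fun isClosed_frontier.measurableSet
      (ae_of_all _ fun x hx => eF x (frontier_subset_closure hx))] at h
  exact h

end Pool.Agent.MP_a32717_an.Sym
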