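import Mathlib

/-! Shared tools: splitting a Euclidean space along a vector, Haar transport, push-forward bound,
polar comparison. -/

open MeasureTheory Set Metric Module
open scoped ENNReal NNReal RealInnerProductSpace

set_option linter.unusedSectionVars false

noncomputable section
namespace Pool.Agent.MP_a32717_an.Sym

section Dec
variable {X : Type*} [NormedAddCommGroup X] [InnerProductSpace ℝ X] [FiniteDimensional ℝ X]

/-- orthogonal projection onto the hyperplane orthogonal to `e` -/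
def prj (e : X) : X →L[ℝ] (ℝ ∙ e)ᗮ := ((ℝ ∙ e)ᗮ).orthogonalProjectionOnto

lemma prj_coe (e x : X) : (prj e x : X) = x - (⟪e, x⟫ / ‖e‖ ^ 2) • e := by
  have h := Submodule.starProjection_orthogonal_val (K := ℝ ∙ e) x
  have h2 := Submodule.starProjection_singleton ℝ (v := e) x
  simp only [prj]
  rw [← Submodule.starProjection_apply, h, h2]
  simp

lemma prj_val (e : X) (y : (ℝ ∙ e)ᗮ) : prj e (y : X) = y := by
  simp [prj]

lemma prj_self (e : X) : prj e e = 0 := by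
  simp only [prj]
  exact Submodule.orthogonalProjectionOnto_orthogonalComplement_singleton_eq_zero e

lemma inner_perp (e : X) (y : (ℝ ∙ e)ᗮ) : ⟪e, (y : X)⟫ = 0 :=
  Submodule.mem_orthogonal_singleton_iff_inner_right.1 y.2

lemma prj_lip (e : X) : LipschitzWith 1 (prj e) := by
  refine LipschitzWith.of_dist_le_mul fun x y => ?_
  rw [dist_eq_norm, dist_eq_norm, ← map_sub]
  simpa [prj] using Submodule.norm_orthogonalProjectionOnto_apply_le ((ℝ ∙ e)ᗮ) (x - y)

/-- `(y, t) ↦ y + t e` -/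
def dec (e : X) (he : e ≠ 0) : ((ℝ ∙ e)ᗮ × ℝ) ≃L[ℝ] X :=
  LinearEquiv.toContinuousLinearEquiv
    { toFun := fun q => (q.1 : X) + q.2 • e
      invFun := fun x => (prj e x, ⟪e, x⟫ / ‖e‖ ^ 2)
      map_add' := fun a b => by simp [add_smul]; abel
      map_smul' := fun c a => by simp [mul_smul]
      left_inv := fun q => by
        have hn : ‖e‖ ^ 2 ≠ 0 := by positivity
        ext
        · simp [prj_val, prj_self]
        · simp [inner_add_right, inner_smul_right, inner_perp, hn]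
      right_inv := fun x => by simp [prj_coe] }

lemma dec_apply (e : X) (he : e ≠ 0) (q : (ℝ ∙ e)ᗮ × ℝ) : dec e he q = (q.1 : X) + q.2 • e := rfl

lemma dec_symm_apply (e : X) (he : e ≠ 0) (x : X) :
    (dec e he).symm x = (prj e x, ⟪e, x⟫ / ‖e‖ ^ 2) := rfl

lemma prj_dec (e : X) (he : e ≠ 0) (q : (ℝ ∙ e)ᗮ × ℝ) : prj e (dec e he q) = q.1 := by
  have := (dec e he).symm_apply_apply q
  rw [dec_symm_apply] at this
  exact congrArg Prod.fst this

lemma finrank_perp (e : X) (he : e ≠ 0) {m : ℕ} (hm : finrank ℝ X = m + 1) :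
    finrank ℝ (ℝ ∙ e)ᗮ = m := by
  have h1 := Submodule.finrank_add_finrank_orthogonal (ℝ ∙ e)
  rw [finrank_span_singleton he, hm] at h1
  omega

end Dec

/-- Haar measures transported along a linear equivalence agree up to a positive finite factor. -/
lemma haar_transport {X Y : Type*} [NormedAddCommGroup X] [NormedSpace ℝ X] [FiniteDimensional ℝ X]
    [MeasurableSpace X] [BorelSpace X] [NormedAddCommGroup Y] [NormedSpace ℝ Y]
    [FiniteDimensional ℝ Y] [MeasurableSpace Y] [BorelSpace Y] (Ψ : Y ≃L[ℝ] X) (ν : Measure Y)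
    [ν.IsAddHaarMeasure] (ρ : Measure X) [ρ.IsAddHaarMeasure] :
    ∃ c : ℝ≥0, c ≠ 0 ∧
      (∀ (S : Set X) (F : X → ℝ≥0∞), ∫⁻ x in S, F x ∂ρ = c * ∫⁻ y in Ψ ⁻¹' S, F (Ψ y) ∂ν) ∧
      (∀ (S : Set X) (F : X → ℝ), ∫ x in S, F x ∂ρ = c * ∫ y in Ψ ⁻¹' S, F (Ψ y) ∂ν) ∧
      ∀ S : Set X, ρ S = c * ν (Ψ ⁻¹' S) := by
  have : (ν.map Ψ).IsAddHaarMeasure := Ψ.isAddHaarMeasure_map ν
  have h := Measure.isAddLeftInvariant_eq_smul ρ (ν.map Ψ)
  have hme : MeasurableEmbedding Ψ := Ψ.toHomeomorph.measurableEmbedding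
  refine ⟨Measure.addHaarScalarFactor ρ (ν.map Ψ),
    (Measure.addHaarScalarFactor_pos_of_isAddHaarMeasure ρ (ν.map Ψ)).ne', fun S F => ?_,
    fun S F => ?_, fun S => ?_⟩
  · conv_lhs => rw [h]
    rw [Measure.restrict_smul, lintegral_smul_measure, hme.restrict_map, hme.lintegral_map]; rfl
  · conv_lhs => rw [h]
    rw [Measure.restrict_smul, integral_smul_nnreal_measure, hme.setIntegral_map]; rfl
  · conv_lhs => rw [h]
    rw [Measure.smul_apply, hme.map_apply]; rfl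

lemma integrableOn_bdd {X : Type*} [MetricSpace X] [ProperSpace X] [MeasurableSpace X]
    [BorelSpace X] (μ : Measure X) [IsFiniteMeasureOnCompacts μ] {F : X → ℝ} (hF : Continuous F)
    {S : Set X} (hS : Bornology.IsBounded S) : IntegrableOn F S μ :=
  (hF.continuousOn.integrableOn_compact hS.isCompact_closure).mono_set subset_closure

/-- A set-wise bound for a push-forward gives the bound for integrals. -/
lemma push_le {α β : Type*} [MeasurableSpace α] [MeasurableSpace β] (σ : Measure α)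
    (ν : Measure β) (g : α → β) (hg : AEMeasurable g σ)
    (h : ∀ S, MeasurableSet S → σ (g ⁻¹' S) ≤ ν S) (F : β → ℝ≥0∞) (hF : Measurable F) :
    ∫⁻ x, F (g x) ∂σ ≤ ∫⁻ y, F y ∂ν := by
  rw [← lintegral_map' hF.aemeasurable hg]
  refine lintegral_mono' (Measure.le_iff.2 fun S hS => ?_) le_rfl
  rw [Measure.map_apply_of_aemeasurable hg hS]
  exact h S hS

lemma lintegral_Ioi_scale (X : ℝ → ℝ≥0∞) {ρ : ℝ} (hρ : 0 < ρ) :
    ∫⁻ r in Ioi (0 : ℝ), X r = ENNReal.ofReal ρ * ∫⁻ s in Ioi (0 : ℝ), X (ρ * s) := by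
  have hme : MeasurableEmbedding fun s : ℝ => ρ * s :=
    (Homeomorph.mulLeft₀ ρ hρ.ne').measurableEmbedding
  have h1 : (fun s : ℝ => ρ * s) ⁻¹' Ioi 0 = Ioi 0 := by
    ext s; simp [hρ]
  have h2 : ∫⁻ r in Ioi (0 : ℝ), X r ∂(volume.map fun s : ℝ => ρ * s) =
      ∫⁻ s in (fun s : ℝ => ρ * s) ⁻¹' Ioi 0, X (ρ * s) := by
    rw [hme.restrict_map, hme.lintegral_map]
  rw [h1, Real.map_volume_mul_left hρ.ne', Measure.restrict_smul, lintegral_smul_measure] at h2
  rw [← h2, smul_eq_mul, ← mul_assoc, ← ENNReal.ofReal_mul hρ.le, abs_of_pos (inv_pos.2 hρ),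
    mul_inv_cancel₀ hρ.ne']
  simp

lemma polar_lintegral {V : Type*} [NormedAddCommGroup V] [NormedSpace ℝ V] [FiniteDimensional ℝ V]
    [Nontrivial V] [MeasurableSpace V] [BorelSpace V] (μ : Measure V) [μ.IsAddHaarMeasure]
    (G : V → ℝ≥0∞) (hG : Measurable G) :
    ∫⁻ x, G x ∂μ = ∫⁻ θ : sphere (0 : V) 1, (∫⁻ r in Ioi (0 : ℝ),
      ENNReal.ofReal (r ^ (finrank ℝ V - 1)) * G (r • (θ : V))) ∂μ.toSphere := by
  have hm : Measurable fun z : sphere (0 : V) 1 × Ioi (0 : ℝ) => G ((z.2 : ℝ) • (z.1 : V)) :=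
    hG.comp (by fun_prop)
  calc ∫⁻ x, G x ∂μ = ∫⁻ x : ({(0)}ᶜ : Set V), G x.1 ∂(μ.comap (↑)) := by
        rw [lintegral_subtype_comap (measurableSet_singleton _).compl, restrict_compl_singleton]
    _ = ∫⁻ z, G ((z.2 : ℝ) • (z.1 : V)) ∂μ.toSphere.prod (.volumeIoiPow (finrank ℝ V - 1)) := by
        rw [← μ.measurePreserving_homeomorphUnitSphereProd.lintegral_comp_emb
          (Homeomorph.measurableEmbedding _)]
        refine lintegral_congr fun x => ?_
        have hx : ‖(x : V)‖ ≠ 0 := norm_ne_zero_iff.2 x.2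
        simp [smul_smul, hx]
    _ = _ := by
        rw [lintegral_prod _ hm.aemeasurable]
        refine lintegral_congr fun θ => ?_
        have hm2 : Measurable fun r : Ioi (0 : ℝ) => G ((r : ℝ) • (θ : V)) :=
          hG.comp (by fun_prop)
        simp only []
        rw [Measure.volumeIoiPow, lintegral_withDensity_eq_lintegral_mul _ (by fun_prop) hm2]
        exact lintegral_subtype_comap measurableSet_Ioi
          fun r : ℝ => ENNReal.ofReal (r ^ (finrank ℝ V - 1)) * G (r • (θ : V))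

/-- Comparison of two integrals ray by ray. -/
lemma polar_le {V : Type*} [NormedAddCommGroup V] [NormedSpace ℝ V] [FiniteDimensional ℝ V]
    [Nontrivial V] [MeasurableSpace V] [BorelSpace V] (μ : Measure V) [μ.IsAddHaarMeasure]
    (Φ G : V → ℝ≥0∞) (hΦ : Measurable Φ) (hG : Measurable G) (C : ℝ≥0∞) (hC : C ≠ ∞)
    (h : ∀ θ : V, ‖θ‖ = 1 → ∃ ρ : ℝ, 0 < ρ ∧
      ∫⁻ s in Ioi (0 : ℝ), ENNReal.ofReal (s ^ (finrank ℝ V - 1)) * Φ (s • ρ • θ) ≤
        C * ∫⁻ s in Ioi (0 : ℝ), ENNReal.ofReal (s ^ (finrank ℝ V - 1)) * G (s • ρ • θ)) :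
    ∫⁻ x, Φ x ∂μ ≤ C * ∫⁻ x, G x ∂μ := by
  rw [polar_lintegral μ Φ hΦ, polar_lintegral μ G hG, ← lintegral_const_mul' _ _ hC]
  refine lintegral_mono fun θ => ?_
  obtain ⟨ρ, hρ, hθ⟩ := h θ (by simp)
  have key : ∀ T : V → ℝ≥0∞, ∫⁻ r in Ioi (0 : ℝ),
      ENNReal.ofReal (r ^ (finrank ℝ V - 1)) * T (r • (θ : V)) =
      ENNReal.ofReal ρ * (ENNReal.ofReal (ρ ^ (finrank ℝ V - 1)) *
        ∫⁻ s in Ioi (0 : ℝ), ENNReal.ofReal (s ^ (finrank ℝ V - 1)) * T (s • ρ • (θ : V))) := by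
    intro T
    rw [lintegral_Ioi_scale _ hρ]
    congr 1
    rw [← lintegral_const_mul' _ _ ENNReal.ofReal_ne_top]
    refine lintegral_congr fun s => ?_
    rw [mul_pow, ENNReal.ofReal_mul (by positivity), mul_assoc, smul_smul, mul_comm s ρ]
  simp only [key]
  calc _ ≤ ENNReal.ofReal ρ * (ENNReal.ofReal (ρ ^ (finrank ℝ V - 1)) * (C * _)) := by gcongr
    _ = _ := by ring

end Pool.Agent.MP_a32717_an.Sym
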