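import Pool.Agent.MP_a32717_an.Sym.Piece

/-! Averaging over directions: from projections to the surface measure. -/

open MeasureTheory Set Metric Module Filter Topology
open scoped ENNReal NNReal RealInnerProductSpace

set_option linter.unusedSectionVars false

noncomputable section
namespace Pool.Agent.MP_a32717_an.Sym

variable {E : Type*} [NormedAddCommGroup E] [InnerProductSpace ℝ E] [FiniteDimensional ℝ E]
  [MeasurableSpace E] [BorelSpace E] {m : ℕ} {e : E} {θ : ℝ} {K : Set E}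

/-- lower weight -/
def wlo (m : ℕ) (θ a : ℝ) : ℝ≥0∞ := if θ ≤ a then ENNReal.ofReal ((1 - θ) ^ m * a) else 0

/-- upper weight -/
def whi (m : ℕ) (θ a : ℝ) : ℝ≥0∞ :=
  if θ ≤ a then ENNReal.ofReal ((1 + θ) ^ m * a) else if -θ < a then 1 else 0

lemma wlo_meas (m : ℕ) (θ : ℝ) : Measurable (wlo m θ) :=
  Measurable.ite measurableSet_Ici (by fun_prop) measurable_const

lemma whi_meas (m : ℕ) (θ : ℝ) : Measurable (whi m θ) :=
  Measurable.ite measurableSet_Ici (by fun_prop)
    (Measurable.ite measurableSet_Ioi measurable_const measurable_const)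

lemma prj_eq {x x' : E} (h : prj e x = prj e x') : ∃ t : ℝ, x' = x + t • e := by
  have h1 := congrArg Subtype.val h
  rw [prj_coe, prj_coe] at h1
  refine ⟨⟪e, x'⟫ / ‖e‖ ^ 2 - ⟪e, x⟫ / ‖e‖ ^ 2, ?_⟩
  rw [sub_smul, ← add_sub_assoc, add_sub_right_comm, h1, sub_add_cancel]

lemma proj_eq (he : e ≠ 0) (K : Set E) : Prod.fst '' (dec e he ⁻¹' K) = prj e '' K := by
  ext y
  constructor
  · rintro ⟨q, hq, rfl⟩; exact ⟨_, hq, prj_dec e he q⟩
  · rintro ⟨x, hx, rfl⟩; exact ⟨(dec e he).symm x, by simpa using hx, rfl⟩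

lemma pre_compact (he : e ≠ 0) (hK : IsCompact K) : IsCompact (dec e he ⁻¹' K) :=
  (dec e he).toHomeomorph.isCompact_preimage.2 hK

lemma pre_convex (he : e ≠ 0) (hc : Convex ℝ K) : Convex ℝ (dec e he ⁻¹' K) :=
  hc.linear_preimage (dec e he : ((ℝ ∙ e)ᗮ × ℝ) →ₗ[ℝ] E)

lemma pre_zero (he : e ≠ 0) (h0 : 0 ∈ interior K) : 0 ∈ interior (dec e he ⁻¹' K) :=
  preimage_interior_subset_interior_preimage (dec e he).continuous (by simpa using h0)

lemma top_mem_frontier (he : e ≠ 0) (hK : IsCompact K) {y : (ℝ ∙ e)ᗮ} (hy : y ∈ prj e '' K) :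
    dec e he (y, top (dec e he ⁻¹' K) y) ∈ frontier K := by
  have := top_frontier (pre_compact he hK) (by rwa [proj_eq])
  have e1 : dec e he ⁻¹' frontier K = frontier (dec e he ⁻¹' K) :=
    (dec e he).toHomeomorph.preimage_frontier K
  rwa [← e1] at this

section pieces
variable (hm : finrank ℝ E = m + 1) (hK : IsCompact K) {ν : ℕ → E} (hν : ∀ j, ‖ν j‖ = 1)
  (h1 : 0 < θ) (h2 : θ < 1) {A : ℕ → Set E} (hA : ∀ j, A j ⊆ piece K (ν j) (θ * θ))
  (mA : ∀ j, MeasurableSet (A j))
include hm hK hν h1 h2 hA mA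

lemma dir_lower (dA : Pairwise (Function.onFun Disjoint A)) (he1 : ‖e‖ ≤ 1) :
    ∑' j, wlo m θ ⟪ν j, e⟫ * μH[m] (A j) ≤
      ENNReal.ofReal ‖e‖ * (μH[m] : Measure (ℝ ∙ e)ᗮ) (prj e '' K) := by
  set B : ℕ → Set E := fun j => if θ ≤ ⟪ν j, e⟫ then A j else ∅ with hB
  have hθ : θ * θ < θ := by nlinarith
  have b1 : ∀ j, ∀ x ∈ B j, x ∈ A j ∧ ∀ t : ℝ, x + t • e ∈ K → t ≤ 0 := fun j x hx => by
    simp only [hB] at hx
    split_ifs at hx with h
    · exact ⟨hx, fun t => piece_move (hA j hx) he1 (by positivity) (by linarith)⟩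
    · exact hx.elim
  have b2 : ∀ i j, ∀ x ∈ B i, ∀ x' ∈ B j, prj e x = prj e x' → x = x' := fun i j x hx x' hx' h => by
    obtain ⟨t, rfl⟩ := prj_eq h
    have a := (b1 i x hx).2 t (hA j (b1 j _ hx').1).1
    have b := (b1 j _ hx').2 (-t) (by simpa using (hA i (b1 i x hx).1).1)
    rw [show t = 0 by linarith]; simp
  have mB : ∀ j, MeasurableSet (prj e '' B j) := fun j =>
    MeasurableSet.image_of_continuousOn_injOn (by simp only [hB]; split_ifs <;> simp [mA])
      (prj e).continuous.continuousOn fun x hx x' hx' => b2 j j x hx x' hx'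
  have dB : Pairwise (Function.onFun Disjoint fun j => prj e '' B j) := fun i j hij => by
    refine disjoint_left.2 ?_
    rintro _ ⟨x, hx, rfl⟩ ⟨x', hx', h⟩
    obtain rfl := b2 j i x' hx' x hx h
    exact disjoint_left.1 (dA hij) (b1 i _ hx).1 (b1 j _ hx').1
  calc _ ≤ ∑' j, ENNReal.ofReal ‖e‖ * (μH[m] : Measure (ℝ ∙ e)ᗮ) (prj e '' B j) := by
        refine ENNReal.tsum_le_tsum fun j => ?_
        simp only [wlo, hB]
        split_ifs with h
        · exact (flat hm (hν j) he1 (by linarith) (by positivity) (by gcongr) h2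
            fun x hx x' hx' => piece_secant (hA j hx) (hA j hx')).1
        · simp
    _ ≤ _ := by
        rw [ENNReal.tsum_mul_left, ← measure_iUnion dB mB]
        gcongr
        exact iUnion_subset fun j => image_mono fun x hx => (hA j (b1 j x hx).1).1

lemma dir_upper (hc : Convex ℝ K) (h0 : 0 ∈ interior K) (cA : frontier K ⊆ ⋃ j, A j) (he : e ≠ 0)
    (he1 : ‖e‖ ≤ 1) (F : E → ℝ≥0∞) (hF : Measurable F) :
    ENNReal.ofReal ‖e‖ * ∫⁻ y in interior (prj e '' K),
      F (dec e he (y, top (dec e he ⁻¹' K) y)) ∂μH[m] ≤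
      ∑' j, whi m θ ⟪ν j, e⟫ * ∫⁻ x in A j, F x ∂μH[m] := by
  have hθ : θ * θ < θ := by nlinarith
  have k1 := pre_compact he hK
  have k2 := pre_convex he hc
  have hg : ContinuousOn (fun y => dec e he (y, top (dec e he ⁻¹' K) y)) (interior (prj e '' K)) :=
    (dec e he).continuous.comp_continuousOn
      (continuousOn_id.prodMk (proj_eq he K ▸ top_contOn k1 k2))
  have := push_le (ENNReal.ofReal ‖e‖ • μH[m].restrict (interior (prj e '' K)))
    (Measure.sum fun j => whi m θ ⟪ν j, e⟫ • μH[m].restrict (A j)) _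
    ((hg.aemeasurable isOpen_interior.measurableSet).smul_measure _) (fun S hS => ?_) F hF
  · simpa only [lintegral_smul_measure, lintegral_sum_measure, smul_eq_mul] using this
  set C : ℕ → Set E := fun j => if -θ < ⟪ν j, e⟫ then S ∩ A j else ∅ with hC
  have c1 : (fun y => dec e he (y, top (dec e he ⁻¹' K) y)) ⁻¹' S ∩ interior (prj e '' K) ⊆
      ⋃ j, prj e '' C j := by
    rintro y ⟨hy, hi⟩
    obtain ⟨j, hj⟩ := mem_iUnion.1 (cA (top_mem_frontier he hK (interior_subset hi)))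
    refine mem_iUnion.2 ⟨j, _, ?_, prj_dec e he (y, top (dec e he ⁻¹' K) y)⟩
    simp only [hC]
    rw [if_pos]
    · exact ⟨hy, hj⟩
    by_contra hn
    obtain ⟨t, t1, t2⟩ := top_nondeg k1 k2 (pre_zero he h0) (by rwa [proj_eq])
    have := piece_move (e := -e) (t := top (dec e he ⁻¹' K) y - t) (hA j hj) (by rwa [norm_neg])
      (by positivity) (by rw [inner_neg_right]; linarith) (by
        convert t2.out using 1
        simp only [dec_apply, sub_smul, smul_neg]; abel)
    linarith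
  rw [Measure.smul_apply, Measure.restrict_apply' isOpen_interior.measurableSet,
    Measure.sum_apply _ hS, smul_eq_mul]
  refine (mul_le_mul_right ((measure_mono c1).trans (measure_iUnion_le _)) _).trans ?_
  rw [← ENNReal.tsum_mul_left]
  refine ENNReal.tsum_le_tsum fun j => ?_
  rw [Measure.smul_apply, Measure.restrict_apply hS, smul_eq_mul]
  simp only [whi, hC]
  split_ifs with a b b
  · exact (flat hm (hν j) he1 (by linarith) (by positivity) (by gcongr) h2
      fun x hx x' hx' => piece_secant (hA j hx.2) (hA j hx'.2)).2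
  · exact mul_le_mul' (ENNReal.ofReal_le_one.2 he1) (prj_measure_le e m _)
  · simp
  · simp

end pieces

lemma avg_inv (φ : ℝ → ℝ≥0∞) {ν ν' : E} (h : ‖ν‖ = ‖ν'‖) :
    ∫⁻ e in ball (0 : E) 1, φ ⟪ν, e⟫ = ∫⁻ e in ball (0 : E) 1, φ ⟪ν', e⟫ := by
  set R := Submodule.reflection (ℝ ∙ (ν - ν'))ᗮ with hR
  have h1 : R ν = ν' := Submodule.reflection_sub h
  have h2 := R.measurePreserving.setLIntegral_comp_preimage_emb R.toHomeomorph.measurableEmbedding
    (fun e => φ ⟪ν', e⟫) (ball 0 1)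
  rw [← h2, show R ⁻¹' ball 0 1 = ball 0 1 by ext; simp]
  simp only [← h1, R.inner_map_map]

lemma w_lim {ν : E} (hν : ‖ν‖ = 1) (m : ℕ) :
    Tendsto (fun k : ℕ => ∫⁻ e in ball (0 : E) 1, wlo m (1 / (k + 2)) ⟪ν, e⟫) atTop
      (𝓝 (∫⁻ e in ball (0 : E) 1, ENNReal.ofReal ⟪ν, e⟫)) ∧
    Tendsto (fun k : ℕ => ∫⁻ e in ball (0 : E) 1, whi m (1 / (k + 2)) ⟪ν, e⟫) atTop
      (𝓝 (∫⁻ e in ball (0 : E) 1, ENNReal.ofReal ⟪ν, e⟫)) := by
  have t0 : Tendsto (fun k : ℕ => (1 / (k + 2) : ℝ)) atTop (𝓝 0) :=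
    tendsto_const_nhds.div_atTop (tendsto_atTop_add_const_right _ _ tendsto_natCast_atTop_atTop)
  have p : ∀ k : ℕ, (0 : ℝ) < 1 / (k + 2) ∧ (1 / (k + 2) : ℝ) ≤ 1 := fun k =>
    ⟨by positivity, by rw [div_le_one (by positivity)]; linarith [k.cast_nonneg (α := ℝ)]⟩
  have ci : Measurable fun e : E => ⟪ν, e⟫ := by fun_prop
  have ae : ∀ᵐ e ∂(volume.restrict (ball (0 : E) 1)), ⟪ν, e⟫ ≠ 0 := by
    refine ae_restrict_of_ae (measure_mono_null (t := (ℝ ∙ ν)ᗮ) (fun e he => ?_)
      (Measure.addHaar_submodule _ _ fun h => ?_))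
    · exact Submodule.mem_orthogonal_singleton_iff_inner_right.2 (by simpa using he)
    · have := inner_perp ν ⟨ν, h ▸ Submodule.mem_top⟩
      simp [hν] at this
  have bd : ∀ s : ℝ, |s| ≤ 2 → ∀ e ∈ ball (0 : E) 1,
      ENNReal.ofReal (s ^ m * ⟪ν, e⟫) ≤ ENNReal.ofReal (2 ^ m) := fun s hs e he => by
    refine ENNReal.ofReal_le_ofReal ((le_abs_self _).trans ?_)
    have h1 := abs_real_inner_le_norm ν e
    have h2 : ‖e‖ < 1 := by simpa using he
    rw [hν] at h1
    rw [abs_mul, abs_pow]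
    calc _ ≤ (2 : ℝ) ^ m * 1 := by gcongr; linarith
      _ = _ := mul_one _
  have fin : ∫⁻ _ in ball (0 : E) 1, ENNReal.ofReal (2 ^ m) ≠ ∞ := by
    rw [setLIntegral_const]; exact ENNReal.mul_ne_top (by simp) measure_ball_lt_top.ne
  have lim : ∀ s a : ℝ, Tendsto (fun k : ℕ => ENNReal.ofReal ((1 + s * (1 / (k + 2))) ^ m * a))
      atTop (𝓝 (ENNReal.ofReal a)) := fun s a =>
    ENNReal.tendsto_ofReal (by
      simpa using (((t0.const_mul s).const_add 1).pow m).mul_const a)
  constructor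
  · refine tendsto_lintegral_of_dominated_convergence _ (fun k => (wlo_meas _ _).comp ci)
      (fun k => ae_restrict_of_forall_mem measurableSet_ball fun e he => ?_) fin
      (ae.mono fun e he => ?_)
    · simp only [wlo]
      split_ifs
      · exact bd _ (abs_le.2 ⟨by linarith [(p k).2], by linarith [(p k).1]⟩) e he
      · simp
    · rcases he.lt_or_gt with h | h
      · rw [ENNReal.ofReal_of_nonpos h.le]
        exact tendsto_const_nhds.congr fun k => (if_neg (by linarith [(p k).1])).symm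
      · refine (lim (-1) _).congr' ((t0.eventually (ge_mem_nhds h)).mono fun k hk => ?_)
        simp only [wlo]
        rw [if_pos hk]; ring_nf
  · refine tendsto_lintegral_of_dominated_convergence _ (fun k => (whi_meas _ _).comp ci)
      (fun k => ae_restrict_of_forall_mem measurableSet_ball fun e he => ?_) fin
      (ae.mono fun e he => ?_)
    · simp only [whi]
      split_ifs
      · exact bd _ (abs_le.2 ⟨by linarith [(p k).1], by linarith [(p k).2]⟩) e he
      · exact ENNReal.one_le_ofReal.2 (one_le_pow₀ one_le_two)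
      · simp
    · rcases he.lt_or_gt with h | h
      · rw [ENNReal.ofReal_of_nonpos h.le]
        refine tendsto_const_nhds.congr' ((t0.eventually (ge_mem_nhds (neg_pos.2 h))).mono
          fun k hk => ?_)
        simp only [whi]
        rw [if_neg (by linarith [(p k).1]), if_neg (by linarith)]
      · refine (lim 1 _).congr' ((t0.eventually (ge_mem_nhds h)).mono fun k hk => ?_)
        simp only [whi]
        rw [if_pos hk]; ring_nf

lemma exists_net (hm : finrank ℝ E = m + 1) : ∃ ν : ℕ → E, (∀ j, ‖ν j‖ = 1) ∧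
    ∀ δ > 0, ∀ n : E, ‖n‖ = 1 → ∃ j, ‖n - ν j‖ ≤ δ := by
  have : Nontrivial E := Module.nontrivial_of_finrank_pos (R := ℝ) (by omega)
  have : Nonempty (sphere (0 : E) 1) := (NormedSpace.sphere_nonempty.2 zero_le_one).to_subtype
  refine ⟨fun j => TopologicalSpace.denseSeq (sphere (0 : E) 1) j, fun j => by simp,
    fun δ hδ n hn => ?_⟩
  obtain ⟨j, hj⟩ := (TopologicalSpace.denseRange_denseSeq (sphere (0 : E) 1)).exists_dist_lt
    ⟨n, by simpa using hn⟩ hδ
  exact ⟨j, by rw [← dist_eq_norm]; exact hj.le⟩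

/-- An inequality that holds for the projection in every direction holds for the boundary. -/
theorem cauchy (hm : finrank ℝ E = m + 1) (hK : IsCompact K) (hc : Convex ℝ K)
    (h0 : 0 ∈ interior K) (F : E → ℝ≥0∞) (hF : Measurable F) (I C : ℝ≥0∞)
    (h : ∀ (e : E) (he : e ≠ 0), I * (μH[m] : Measure (ℝ ∙ e)ᗮ) (prj e '' K) ≤
      C * ∫⁻ y in interior (prj e '' K), F (dec e he (y, top (dec e he ⁻¹' K) y)) ∂μH[m]) :
    I * μH[m] (frontier K) ≤ C * ∫⁻ x in frontier K, F x ∂μH[m] := by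
  obtain ⟨ν, hν, net⟩ := exists_net hm
  have step : ∀ θ : ℝ, 0 < θ → θ < 1 →
      I * μH[m] (frontier K) * ∫⁻ e in ball (0 : E) 1, wlo m θ ⟪ν 0, e⟫ ≤
      (C * ∫⁻ x in frontier K, F x ∂μH[m]) * ∫⁻ e in ball (0 : E) 1, whi m θ ⟪ν 0, e⟫ := by
    intro θ h1 h2
    set A := disjointed fun j => piece K (ν j) (θ * θ) with hA
    have a1 : ∀ j, A j ⊆ piece K (ν j) (θ * θ) := disjointed_subset _
    have a2 : ∀ j, MeasurableSet (A j) :=
      MeasurableSet.disjointed fun j => (piece_compact hK _ _).measurableSet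
    have a3 := disjoint_disjointed fun j => piece K (ν j) (θ * θ)
    have a4 : frontier K = ⋃ j, A j := by
      rw [hA, iUnion_disjointed]
      refine Subset.antisymm (fun x hx => ?_) (iUnion_subset fun j => piece_sub _ _)
      obtain ⟨a, n, b, c⟩ := exists_normal hK.isClosed hc h0 hx
      obtain ⟨j, hj⟩ := net (θ * θ) (by positivity) n b
      exact mem_iUnion.2 ⟨j, a, n, b, hj, c⟩
    have ci : ∀ j, Measurable fun e : E => ⟪ν j, e⟫ := fun j => by fun_prop
    have key : ∀ (φ : ℝ → ℝ≥0∞) (a : ℕ → ℝ≥0∞) (c : ℝ≥0∞), Measurable φ →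
        ∫⁻ e in ball (0 : E) 1, c * ∑' j, φ ⟪ν j, e⟫ * a j =
          (c * ∑' j, a j) * ∫⁻ e in ball (0 : E) 1, φ ⟪ν 0, e⟫ := fun φ a c hφ => by
      have q : ∀ j, Measurable fun e : E => φ ⟪ν j, e⟫ * a j :=
        fun j => (hφ.comp (ci j)).mul_const _
      rw [lintegral_const_mul _ (Measurable.tsum q),
        lintegral_tsum fun j => (q j).aemeasurable, mul_assoc, ← ENNReal.tsum_mul_right]
      congr 2 with j
      have q' : Measurable fun e : E => φ ⟪ν j, e⟫ := hφ.comp (ci j)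
      rw [lintegral_mul_const _ q', mul_comm, avg_inv φ ((hν j).trans (hν 0).symm)]
    rw [a4, measure_iUnion a3 a2, lintegral_iUnion a2 a3, ← key _ _ _ (wlo_meas m θ),
      ← key _ _ _ (whi_meas m θ)]
    refine setLIntegral_mono' measurableSet_ball fun e he => ?_
    have he1 : ‖e‖ ≤ 1 := by simpa using ball_subset_closedBall he
    rcases eq_or_ne e 0 with rfl | he0
    · simp [wlo, h1.not_ge]
    calc _ ≤ I * (ENNReal.ofReal ‖e‖ * _) :=
          mul_le_mul_right (dir_lower hm hK hν h1 h2 a1 a2 a3 he1) _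
      _ ≤ ENNReal.ofReal ‖e‖ * (C * _) := by
          rw [mul_left_comm]; exact mul_le_mul_right (h e he0) _
      _ ≤ _ := by
          rw [mul_left_comm]
          exact mul_le_mul_right (dir_upper hm hK hν h1 h2 a1 a2 hc h0 a4.subset he0 he1 F hF) _
  have k0 : ∫⁻ e in ball (0 : E) 1, ENNReal.ofReal ⟪ν 0, e⟫ ≠ 0 := by
    rw [← pos_iff_ne_zero, setLIntegral_pos_iff (by fun_prop)]
    have : IsOpen ({e : E | 0 < ⟪ν 0, e⟫} ∩ ball 0 1) :=
      (isOpen_lt continuous_const (by fun_prop)).inter isOpen_ball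
    refine (this.measure_pos volume ⟨(1 / 2 : ℝ) • ν 0, ?_, ?_⟩).trans_le
      (measure_mono (inter_subset_inter_left _ fun e he => by simpa using he))
    · simp [inner_smul_right, hν]
    · simp [norm_smul, hν]; norm_num
  have k1 : ∫⁻ e in ball (0 : E) 1, ENNReal.ofReal ⟪ν 0, e⟫ ≠ ∞ := by
    refine ne_top_of_le_ne_top (measure_ball_lt_top (μ := volume) (x := (0 : E)) (r := 1)).ne ?_
    rw [← setLIntegral_one]
    refine setLIntegral_mono' measurableSet_ball fun e he => ENNReal.ofReal_le_one.2 ?_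
    have h2 : ‖e‖ < 1 := by simpa using he
    have := real_inner_le_norm (ν 0) e
    rw [hν] at this
    linarith
  rw [← ENNReal.mul_le_mul_iff_left k0 k1]
  refine le_of_tendsto_of_tendsto' (ENNReal.Tendsto.const_mul (w_lim (hν 0) m).1 (Or.inl k0))
    (ENNReal.Tendsto.const_mul (w_lim (hν 0) m).2 (Or.inl k0)) fun k => step _ (by positivity) ?_
  rw [div_lt_one (by positivity)]; linarith [k.cast_nonneg (α := ℝ)]

theorem frontier_fin (hm : finrank ℝ E = m + 1) (hK : IsCompact K) (hc : Convex ℝ K)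
    (h0 : 0 ∈ interior K) : μH[m] (frontier K) ≠ ∞ := by
  obtain ⟨t, t1, t2, t3⟩ := (isCompact_sphere (0 : E) 1).finite_cover_balls (e := 1 / 2) one_half_pos
  have h1 : frontier K ⊆ ⋃ ν ∈ t, piece K ν (1 / 2) := fun x hx => by
    obtain ⟨a, n, b, c⟩ := exists_normal hK.isClosed hc h0 hx
    obtain ⟨ν, hν, d⟩ := mem_iUnion₂.1 (t3 (show n ∈ sphere 0 1 by simpa using b))
    exact mem_iUnion₂.2 ⟨ν, hν, a, n, b, by rw [← dist_eq_norm]; exact d.le, c⟩
  refine ((measure_mono h1).trans_lt (measure_biUnion_lt_top t2 fun ν hν => ?_)).ne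
  have n1 : ‖ν‖ = 1 := by simpa using t1 hν
  have n0 : ν ≠ 0 := by rintro rfl; simp at n1
  have n2 : ⟪ν, ν⟫ = 1 := by rw [real_inner_self_eq_norm_sq, n1, one_pow]
  have := haar_perp ν n0 hm
  have h2 := (flat (θ := 1 / 2) (S := piece K ν (1 / 2)) hm n1 n1.le (by linarith) one_half_pos.le
    (by rw [n2, mul_one]) one_half_lt_one fun x hx x' hx' => piece_secant hx hx').1
  have h3 := ((piece_compact hK ν (1 / 2)).image (prj ν).continuous).measure_lt_top
    (μ := (μH[m] : Measure (ℝ ∙ ν)ᗮ))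
  refine ENNReal.lt_top_of_mul_ne_top_right
    (h2.trans_lt (ENNReal.mul_lt_top ENNReal.ofReal_lt_top h3)).ne ?_
  rw [n2, ne_eq, ENNReal.ofReal_eq_zero, not_le]
  positivity

theorem frontier_pos (hm : finrank ℝ E = m + 1) (hK : IsCompact K) (h0 : 0 ∈ interior K) :
    μH[m] (frontier K) ≠ 0 := by
  have : Nontrivial E := Module.nontrivial_of_finrank_pos (R := ℝ) (by omega)
  obtain ⟨e, he⟩ := exists_ne (0 : E)
  have := haar_perp e he hm
  have h1 : prj e '' K ⊆ prj e '' frontier K := fun y hy =>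
    ⟨_, top_mem_frontier he hK hy, prj_dec e he _⟩
  have h2 := zero_mem_interior_proj (pre_zero he h0)
  rw [proj_eq] at h2
  exact (((Measure.measure_pos_of_nonempty_interior _ ⟨0, h2⟩).trans_le
    (measure_mono h1)).trans_le (prj_measure_le e m _)).ne'

end Pool.Agent.MP_a32717_an.Sym
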