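import Pool.Agent.MP_a32717_an.Sym.Lower
import Pool.Agent.MP_a32717_an.Sym.Top

/-! Projections of nearly flat sets, and the pieces of the boundary of a convex body. -/

open MeasureTheory Set Metric Module Filter Topology
open scoped ENNReal NNReal RealInnerProductSpace

set_option linter.unusedSectionVars false

noncomputable section
namespace Pool.Agent.MP_a32717_an.Sym

variable {E : Type*} [NormedAddCommGroup E] [InnerProductSpace ℝ E] [FiniteDimensional ℝ E]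
  [MeasurableSpace E] [BorelSpace E] {m : ℕ} {ν e : E} {δ θ : ℝ} {K : Set E}

lemma normDet_prj (hν : ‖ν‖ = 1) (he : e ≠ 0) :
    ‖e‖ * ((prj e).toLinearMap ∘ₗ ((ℝ ∙ ν)ᗮ).subtype).normDet = |⟪ν, e⟫| := by
  set L := (prj e).toLinearMap ∘ₗ ((ℝ ∙ ν)ᗮ).subtype with hL
  have hn : ‖e‖ ≠ 0 := norm_ne_zero_iff.2 he
  let b := stdOrthonormalBasis ℝ (ℝ ∙ ν)ᗮ
  have h1 := L.normDet_sq_eq_det_gram b
  have h2 : Matrix.gram ℝ (fun i => L (b i)) = 1 +
      Matrix.replicateCol Unit (fun i => -⟪e, (b i : E)⟫ / ‖e‖ ^ 2) *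
        Matrix.replicateRow Unit fun i => ⟪e, (b i : E)⟫ := by
    ext i j
    have h3 : ⟪(b i : E), (b j : E)⟫ = (1 : Matrix _ _ ℝ) i j := by
      rw [← Submodule.coe_inner, orthonormal_iff_ite.1 b.orthonormal, Matrix.one_apply]
    simp only [Matrix.gram_apply, hL, LinearMap.comp_apply, Submodule.subtype_apply,
      ContinuousLinearMap.coe_coe, Submodule.coe_inner, prj_coe, inner_sub_left, inner_sub_right,
      inner_smul_left, inner_smul_right, Matrix.add_apply, Matrix.mul_apply, h3,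
      real_inner_self_eq_norm_sq, real_inner_comm e, Matrix.replicateCol_apply,
      Matrix.replicateRow_apply, Finset.univ_unique, Finset.sum_singleton, conj_trivial]
    field_simp
    ring
  have h4 : ∑ i, ⟪e, (b i : E)⟫ ^ 2 = ‖e‖ ^ 2 - ⟪ν, e⟫ ^ 2 := by
    have h5 := b.sum_sq_inner_left (prj ν e)
    have h6 : ∀ i, ⟪prj ν e, b i⟫ = ⟪e, (b i : E)⟫ := fun i => by
      rw [Submodule.coe_inner, prj_coe, inner_sub_left, inner_smul_left, inner_perp]; simp
    simp only [h6] at h5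
    rw [h5, Submodule.coe_norm, prj_coe, norm_sub_sq_real, inner_smul_right, norm_smul, hν,
      real_inner_comm ν e]
    simp only [one_pow, div_one, mul_one, Real.norm_eq_abs, sq_abs]
    ring
  rw [h2, Matrix.det_one_add_replicateCol_mul_replicateRow] at h1
  have h7 : (fun i => ⟪e, (b i : E)⟫) ⬝ᵥ (fun i => -⟪e, (b i : E)⟫ / ‖e‖ ^ 2) =
      -(∑ i, ⟪e, (b i : E)⟫ ^ 2) / ‖e‖ ^ 2 := by
    rw [dotProduct, ← Finset.sum_neg_distrib, Finset.sum_div]
    exact Finset.sum_congr rfl fun i _ => by ring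
  rw [h7, h4] at h1
  rw [← sq_eq_sq₀ (mul_nonneg (norm_nonneg _) L.normDet_nonneg) (abs_nonneg _), mul_pow, sq_abs]
  simp only [RCLike.ofReal_real_eq_id, id] at h1
  rw [h1]
  field_simp
  ring

lemma jac (hm : finrank ℝ E = m + 1) (hν : ‖ν‖ = 1) (he : e ≠ 0) {T : Set E}
    (hT : ∀ x ∈ T, ⟪ν, x⟫ = 0) :
    ENNReal.ofReal ‖e‖ * (μH[m] : Measure (ℝ ∙ e)ᗮ) (prj e '' T) =
      ENNReal.ofReal |⟪ν, e⟫| * μH[m] T := by
  have hν0 : ν ≠ 0 := by rintro rfl; simp at hν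
  have h1 := ((prj e).toLinearMap ∘ₗ ((ℝ ∙ ν)ᗮ).subtype).hausdorffMeasure_image
    (Subtype.val ⁻¹' T)
  have h2 : Subtype.val '' (Subtype.val ⁻¹' T : Set (ℝ ∙ ν)ᗮ) = T := by
    refine image_preimage_eq_of_subset fun x hx => ?_
    exact ⟨⟨x, Submodule.mem_orthogonal_singleton_iff_inner_right.2 (hT x hx)⟩, rfl⟩
  rw [finrank_perp ν hν0 hm, LinearMap.coe_comp, image_comp, Submodule.coe_subtype, h2,
    ← (isometry_subtype_coe (s := ((ℝ ∙ ν)ᗮ : Set E))).hausdorffMeasure_image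
      (Or.inl (by positivity))] at h1
  erw [h2] at h1
  rw [← normDet_prj hν he, ENNReal.ofReal_mul (norm_nonneg _), mul_assoc, ← h1]
  rfl

/-- the two-sided bound for the projection of a nearly flat set -/
lemma flat (hm : finrank ℝ E = m + 1) (hν : ‖ν‖ = 1) (he1 : ‖e‖ ≤ 1) (ha : 0 < ⟪ν, e⟫)
    (hδ0 : 0 ≤ δ) (hδ : δ ≤ θ * ⟪ν, e⟫) (hθ : θ < 1) {S : Set E}
    (hS : ∀ x ∈ S, ∀ x' ∈ S, |⟪ν, x - x'⟫| ≤ δ * ‖x - x'‖) :
    ENNReal.ofReal ((1 - θ) ^ m * ⟪ν, e⟫) * μH[m] S ≤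
      ENNReal.ofReal ‖e‖ * (μH[m] : Measure (ℝ ∙ e)ᗮ) (prj e '' S) ∧
    ENNReal.ofReal ‖e‖ * (μH[m] : Measure (ℝ ∙ e)ᗮ) (prj e '' S) ≤
      ENNReal.ofReal ((1 + θ) ^ m * ⟪ν, e⟫) * μH[m] S := by
  have he : e ≠ 0 := by rintro rfl; simp at ha
  have hθ0 : 0 ≤ θ := nonneg_of_mul_nonneg_left (hδ0.trans hδ) ha
  set Q : E → E := fun x => x - (⟪ν, x⟫ / ⟪ν, e⟫) • e with hQ
  have h1 : prj e '' S = prj e '' (Q '' S) := by
    rw [image_image]; exact image_congr fun x _ => by simp [hQ, prj_self]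
  have h2 := jac hm hν he (T := Q '' S) (by
    rintro _ ⟨x, -, rfl⟩
    simp [hQ, inner_sub_right, inner_smul_right, ha.ne'])
  rw [h1, h2, abs_of_pos ha]
  have h3 : ∀ x ∈ S, ∀ x' ∈ S, ‖(Q x - Q x') - (x - x')‖ ≤ θ * ‖x - x'‖ := fun x hx x' hx' => by
    have : (Q x - Q x') - (x - x') = -((⟪ν, x - x'⟫ / ⟪ν, e⟫) • e) := by
      simp only [hQ, inner_sub_right, sub_div, sub_smul]; abel
    rw [this, norm_neg, norm_smul, Real.norm_eq_abs, abs_div, abs_of_pos ha]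
    calc _ ≤ δ * ‖x - x'‖ / ⟪ν, e⟫ * 1 := by gcongr; exact hS x hx x' hx'
      _ ≤ θ * ⟪ν, e⟫ * ‖x - x'‖ / ⟪ν, e⟫ * 1 := by gcongr
      _ = _ := by field_simp
  have h4 : LipschitzOnWith (Real.toNNReal (1 + θ)) Q S :=
    LipschitzOnWith.of_dist_le' fun x hx x' hx' => by
      have := norm_le_norm_add_norm_sub' (Q x - Q x') (x - x')
      rw [dist_eq_norm, dist_eq_norm]; linarith [h3 x hx x' hx']
  have h5 : AntilipschitzWith (Real.toNNReal (1 - θ))⁻¹ (S.domRestrict Q) :=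
    AntilipschitzWith.of_le_mul_dist fun x x' => by
      have := norm_le_norm_add_norm_sub' ((x : E) - x') (Q x - Q x')
      rw [norm_sub_rev ((x : E) - x')] at this
      rw [NNReal.coe_inv, Real.coe_toNNReal _ (by linarith), Subtype.dist_eq, dist_eq_norm,
        dist_eq_norm, domRestrict_apply, domRestrict_apply, le_inv_mul_iff₀ (by linarith)]
      linarith [h3 x x.2 x' x'.2]
  have h6 := h4.hausdorffMeasure_image_le (d := m) (by positivity)
  have h7 := h5.le_hausdorffMeasure_image (d := m) (by positivity) univ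
  rw [← isometry_subtype_coe.hausdorffMeasure_image (Or.inl (by positivity)), image_univ,
    image_univ, Subtype.range_coe, range_domRestrict, ENNReal.rpow_natCast] at h7
  rw [ENNReal.rpow_natCast] at h6
  have p1 : 0 < 1 - θ := by linarith
  constructor
  · rw [mul_comm ((1 - θ) ^ m), ENNReal.ofReal_mul ha.le, mul_assoc]
    gcongr
    refine (mul_le_mul_right h7 _).trans_eq ?_
    rw [← mul_assoc, ENNReal.ofReal_pow p1.le, ← mul_pow, ENNReal.ofReal, ← ENNReal.coe_mul,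
      mul_inv_cancel₀ (by simpa using hθ)]
    simp
  · rw [mul_comm ((1 + θ) ^ m), ENNReal.ofReal_mul ha.le, mul_assoc,
      ENNReal.ofReal_pow (by linarith)]
    gcongr
    exact h6

/-- boundary points with a supporting unit normal close to `ν` -/
def piece (K : Set E) (ν : E) (δ : ℝ) : Set E :=
  {x | x ∈ K ∧ ∃ n, ‖n‖ = 1 ∧ ‖n - ν‖ ≤ δ ∧ ∀ y ∈ K, ⟪n, y - x⟫ ≤ 0}

lemma piece_compact (hK : IsCompact K) (ν : E) (δ : ℝ) : IsCompact (piece K ν δ) := by
  have h1 : IsClosed {q : E × E | ‖q.2 - ν‖ ≤ δ ∧ ∀ y ∈ K, ⟪q.2, y - q.1⟫ ≤ 0} := by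
    simp only [ofPred_and, ofPred_forall]
    exact (isClosed_le (by fun_prop) (by fun_prop)).inter (isClosed_iInter fun y =>
      isClosed_iInter fun _ => isClosed_le (by fun_prop) (by fun_prop))
  convert ((hK.prod (isCompact_sphere (0 : E) 1)).inter_right h1).image continuous_fst using 1
  ext x
  constructor
  · rintro ⟨a, n, b, c, d⟩
    exact ⟨(x, n), ⟨⟨a, by simpa using b⟩, c, d⟩, rfl⟩
  · rintro ⟨q, ⟨⟨a, b⟩, c, d⟩, rfl⟩
    exact ⟨a, q.2, by simpa using b, c, d⟩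

lemma piece_secant {x x' : E} (hx : x ∈ piece K ν δ) (hx' : x' ∈ piece K ν δ) :
    |⟪ν, x - x'⟫| ≤ δ * ‖x - x'‖ := by
  have key : ∀ z ∈ piece K ν δ, ∀ z' ∈ piece K ν δ, ⟪ν, z - z'⟫ ≤ δ * ‖z - z'‖ := by
    rintro z ⟨a, -⟩ z' ⟨-, n, -, c, d⟩
    have h1 := d z a
    have h2 := abs_real_inner_le_norm (n - ν) (z - z')
    have h3 : ‖n - ν‖ * ‖z - z'‖ ≤ δ * ‖z - z'‖ := by gcongr
    rw [inner_sub_left] at h2
    linarith [(abs_le.1 h2).1]
  have h1 := key x' hx' x hx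
  rw [← neg_sub, inner_neg_right, norm_neg] at h1
  exact abs_le.2 ⟨by linarith, key x hx x' hx'⟩

/-- a point of a piece cannot move in a direction that makes a definite angle with `ν` -/
lemma piece_move {x : E} (hx : x ∈ piece K ν δ) (he1 : ‖e‖ ≤ 1) (hδ0 : 0 ≤ δ) (ha : δ < ⟪ν, e⟫)
    {t : ℝ} (ht : x + t • e ∈ K) : t ≤ 0 := by
  obtain ⟨-, n, -, c, d⟩ := hx
  have h1 := d _ ht
  have h2 := abs_real_inner_le_norm (n - ν) e
  have h3 : ‖n - ν‖ * ‖e‖ ≤ δ * 1 := by gcongr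
  rw [inner_sub_left] at h2
  rw [add_sub_cancel_left, inner_smul_right] at h1
  exact nonpos_of_mul_nonpos_left h1 (by linarith [(abs_le.1 h2).1])

lemma piece_sub (ν : E) (δ : ℝ) : piece K ν δ ⊆ frontier K := by
  rintro x ⟨a, n, b, -, d⟩
  refine ⟨subset_closure a, fun h => ?_⟩
  have h1 : ∀ᶠ t : ℝ in 𝓝 0, x + t • n ∈ K := by
    have : ContinuousAt (fun t : ℝ => x + t • n) 0 := by fun_prop
    exact this.eventually_mem (by simpa using mem_interior_iff_mem_nhds.1 h)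
  obtain ⟨t, h2, h3⟩ := ((h1.filter_mono nhdsWithin_le_nhds).and
    (self_mem_nhdsWithin (s := Ioi (0 : ℝ)))).exists
  have := d _ h2
  rw [add_sub_cancel_left, inner_smul_right, real_inner_self_eq_norm_sq, b] at this
  have h4 : 0 < t := h3
  linarith

lemma exists_normal (hK : IsClosed K) (hc : Convex ℝ K) (h0 : 0 ∈ interior K) {x : E}
    (hx : x ∈ frontier K) : x ∈ K ∧ ∃ n : E, ‖n‖ = 1 ∧ ∀ y ∈ K, ⟪n, y - x⟫ ≤ 0 := by
  refine ⟨hK.frontier_subset hx, ?_⟩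
  obtain ⟨f, hf⟩ := geometric_hahn_banach_open_point hc.interior isOpen_interior hx.2
  have h1 : ∀ y ∈ K, f y ≤ f x := fun y hy => by
    have : y ∈ closure (interior K) := by
      rw [hc.closure_interior_eq_closure_of_nonempty_interior ⟨0, h0⟩]; exact subset_closure hy
    exact closure_minimal (fun a ha => (hf a ha).le) (isClosed_le f.continuous continuous_const) this
  set w := (InnerProductSpace.toDual ℝ E).symm f with hw
  have h2 : ∀ y, ⟪w, y⟫ = f y := fun y => InnerProductSpace.toDual_symm_apply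
  have h3 : w ≠ 0 := fun h => by
    have := hf 0 h0
    rw [← h2, ← h2, h] at this
    simp at this
  refine ⟨‖w‖⁻¹ • w, norm_smul_inv_norm h3, fun y hy => ?_⟩
  rw [inner_smul_left, h2, map_sub]
  exact mul_nonpos_of_nonneg_of_nonpos (by simp) (sub_nonpos.2 (h1 y hy))

end Pool.Agent.MP_a32717_an.Sym
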