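import Pool.Agent.MP_a32717_an.Sym.Base

/-! Height profiles for the thin plates of the lower bound. -/

open MeasureTheory Set Metric Module Filter Topology
open scoped ENNReal NNReal RealInnerProductSpace

set_option linter.unusedSectionVars false

noncomputable section
namespace Pool.Agent.MP_a32717_an.Sym

/-- a height profile `h` and a convex function `g` on the base with ratio above `c` -/
def Plate {V : Type*} [NormedAddCommGroup V] [NormedSpace ℝ V] [MeasurableSpace V]
    (μ : Measure V) (c : ℝ) : Prop :=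
  ∃ (h g : V → ℝ) (L : ℝ≥0), LipschitzWith L h ∧ ConcaveOn ℝ univ h ∧ (∀ y, h (-y) = h y) ∧
    0 < h 0 ∧ Bornology.IsBounded {y | 0 < h y} ∧ Continuous g ∧ ConvexOn ℝ univ g ∧
    (∀ y, 0 ≤ g y) ∧ (∀ y, g (-y) = g y) ∧
    c * (∫ y in {y | 0 < h y}, g y ∂μ) * (∫ y in {y | 0 < h y}, h y ∂μ) <
      μ.real {y | 0 < h y} * ∫ y in {y | 0 < h y}, g y * h y ∂μ

lemma plate_transport {X Y : Type*} [NormedAddCommGroup X] [NormedSpace ℝ X]
    [FiniteDimensional ℝ X] [MeasurableSpace X] [BorelSpace X] [NormedAddCommGroup Y]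
    [NormedSpace ℝ Y] [FiniteDimensional ℝ Y] [MeasurableSpace Y] [BorelSpace Y] (Ψ : Y ≃L[ℝ] X)
    (ν : Measure Y) [ν.IsAddHaarMeasure] (ρ : Measure X) [ρ.IsAddHaarMeasure] {c : ℝ}
    (hP : Plate ν c) : Plate ρ c := by
  obtain ⟨h, g, L, hL, hc, he, h0, hb, gc, gv, g0, ge, hlt⟩ := hP
  obtain ⟨a, ha, -, hI, hS⟩ := haar_transport Ψ ν ρ
  have hpre : Ψ ⁻¹' {x | 0 < h (Ψ.symm x)} = {y | 0 < h y} := by ext y; simp
  refine ⟨fun x => h (Ψ.symm x), fun x => g (Ψ.symm x), _, hL.comp Ψ.symm.lipschitz, ?_,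
    fun y => by simp [he], by simpa using h0, ?_, by fun_prop, ?_, fun y => g0 _,
    fun y => by simp [ge], ?_⟩
  · exact hc.comp_linearMap (Ψ.symm : X →ₗ[ℝ] Y)
  · have : {x | 0 < h (Ψ.symm x)} = Ψ '' {y | 0 < h y} := by
      rw [← hpre, image_preimage_eq _ Ψ.surjective]
    rw [this]
    exact Ψ.lipschitz.isBounded_image hb
  · exact gv.comp_linearMap (Ψ.symm : X →ₗ[ℝ] Y)
  · have hap : (0 : ℝ) < a := by positivity
    rw [hI, hI, hI, Measure.real, hS, hpre, ENNReal.toReal_mul]
    simp only [ContinuousLinearEquiv.symm_apply_apply, ENNReal.coe_toReal]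
    have := mul_lt_mul_of_pos_left hlt (mul_pos hap hap)
    rw [Measure.real] at this
    linarith

section Ex
variable {W : Type*} [NormedAddCommGroup W] [NormedSpace ℝ W] [FiniteDimensional ℝ W]
  [MeasurableSpace W] [BorelSpace W] (μ : Measure W) [μ.IsAddHaarMeasure]

lemma cone_integral {k : ℕ} (hk : finrank ℝ W = k + 1) :
    ∫ z in ball (0 : W) 1, (1 - ‖z‖) ∂μ = μ.real (ball 0 1) / (k + 2) := by
  have : Nontrivial W := Module.nontrivial_of_finrank_pos (R := ℝ) (by omega)
  have h1 := integral_fun_norm_addHaar μ ((Iio (1 : ℝ)).indicator fun r => 1 - r)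
  have h2 : (fun z : W => (Iio (1 : ℝ)).indicator (fun r => 1 - r) ‖z‖) =
      (ball (0 : W) 1).indicator fun z => 1 - ‖z‖ := by
    ext z; simp [indicator]
  have h3 : ∫ y in Ioi (0 : ℝ), y ^ (finrank ℝ W - 1) • (Iio (1 : ℝ)).indicator (fun r => 1 - r) y =
      ∫ y in (0 : ℝ)..1, (y ^ k - y ^ (k + 1)) := by
    have : (fun y : ℝ => y ^ (finrank ℝ W - 1) • (Iio (1 : ℝ)).indicator (fun r => 1 - r) y) =
        (Iio (1 : ℝ)).indicator fun y => y ^ k - y ^ (k + 1) := by
      ext y
      by_cases hy : y < 1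
      · simp [hy, hk]; ring
      · simp [hy]
    rw [this, setIntegral_indicator measurableSet_Iio, Ioi_inter_Iio,
      intervalIntegral.integral_of_le zero_le_one, integral_Ioc_eq_integral_Ioo]
  rw [h2, integral_indicator measurableSet_ball, h3,
    intervalIntegral.integral_sub (by simp) (by simp), integral_pow, integral_pow, hk] at h1
  rw [h1]
  simp only [nsmul_eq_mul, smul_eq_mul]
  push_cast
  field_simp
  ring

lemma plate_prod {k : ℕ} (hk : finrank ℝ W = k + 1) {c : ℝ} (hc0 : 0 ≤ c) (hc : c < k + 2) :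
    Plate (μ.prod (volume : Measure ℝ)) c := by
  have hk2 : (0 : ℝ) < k + 2 := by positivity
  obtain ⟨δ, hδ, hδc⟩ : ∃ δ : ℝ, 0 < δ ∧ c * (1 + δ) < k + 2 := by
    refine ⟨(k + 2 - c) / (c + 1), by apply div_pos <;> linarith, ?_⟩
    have : c * ((k + 2 - c) / (c + 1)) < k + 2 - c := by
      rw [← mul_div_assoc, div_lt_iff₀ (by linarith)]; nlinarith
    linarith
  set q : ℝ := c * (1 + δ) / (k + 2) with hq
  have hq1 : q < 1 := by rw [hq, div_lt_one hk2]; exact hδc
  have hq0 : 0 ≤ q := by positivity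
  set κ : ℝ := (1 - q) / 2 with hκ
  have hκ0 : 0 < κ := by linarith
  have hκ1 : κ < 1 := by linarith
  set ν : Measure (W × ℝ) := μ.prod volume with hν
  set H : Set (W × ℝ) := {p | ‖p.1‖ < 1 ∧ |p.2| + δ * ‖p.1‖ < 1 + δ} with hH
  set g : W × ℝ → ℝ := fun p => max (|p.2| - (1 + δ - κ * δ)) 0 with hg
  set h : ℝ → W × ℝ → ℝ := fun L p => min (1 - ‖p.1‖) (L * (1 + δ - |p.2| - δ * ‖p.1‖)) with hh
  have hpos : ∀ L, 0 < L → {p | 0 < h L p} = H := by
    intro L hL
    ext p
    simp only [hh, hH, mem_ofPred_eq, lt_min_iff, mul_pos_iff_of_pos_left hL]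
    constructor <;> rintro ⟨a, b⟩ <;> constructor <;> linarith
  have Ho : IsOpen H := by
    rw [hH, ofPred_and]
    exact (isOpen_lt (by fun_prop) (by fun_prop)).inter (isOpen_lt (by fun_prop) (by fun_prop))
  have Hsub : H ⊆ ball (0 : W) 1 ×ˢ Ioo (-(1 + δ)) (1 + δ) := by
    rintro p ⟨a, b⟩
    have : 0 ≤ δ * ‖p.1‖ := by positivity
    exact ⟨by simpa using a, abs_lt.1 (by linarith)⟩
  have Bb : Bornology.IsBounded (ball (0 : W) 1 ×ˢ Ioo (-(1 + δ)) (1 + δ)) :=
    isBounded_ball.prod (isBounded_Ioo _ _)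
  have Hb : Bornology.IsBounded H := Bb.subset Hsub
  have gc : Continuous g := by fun_prop
  have g0 : ∀ p, 0 ≤ g p := fun p => le_max_right _ _
  have hc' : ∀ L, Continuous (h L) := fun L => by fun_prop
  set ω := μ.real (ball (0 : W) 1) with hω
  have ω0 : 0 < ω := ENNReal.toReal_pos (measure_ball_pos μ _ one_pos).ne' measure_ball_lt_top.ne
  have Ha : 2 * ω ≤ ν.real H := by
    have : ball (0 : W) 1 ×ˢ Ioo (-1 : ℝ) 1 ⊆ H := by
      rintro p ⟨a, b⟩
      have a' : ‖p.1‖ < 1 := by simpa using a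
      have := abs_lt.2 b
      exact ⟨a', by nlinarith⟩
    have h2 := measureReal_mono (μ := ν) this Hb.measure_lt_top.ne
    rw [hν, measureReal_prod_prod, Real.volume_real_Ioo_of_le (by norm_num)] at h2
    linarith
  have Hh : ∀ L, ∫ p in H, h L p ∂ν ≤ 2 * (1 + δ) * (ω / (k + 2)) := by
    intro L
    have hcon : Continuous fun p : W × ℝ => (1 - ‖p.1‖) * (1 : ℝ) := by fun_prop
    calc ∫ p in H, h L p ∂ν ≤ ∫ p in H, (1 - ‖p.1‖) * (1 : ℝ) ∂ν :=
          setIntegral_mono_on (integrableOn_bdd ν (hc' L) Hb) (integrableOn_bdd ν hcon Hb)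
            Ho.measurableSet fun p _ => by rw [mul_one]; exact min_le_left _ _
      _ ≤ ∫ p in ball (0 : W) 1 ×ˢ Ioo (-(1 + δ)) (1 + δ), (1 - ‖p.1‖) * (1 : ℝ) ∂ν := by
          refine setIntegral_mono_set (integrableOn_bdd ν hcon Bb) ?_ Hsub.eventuallyLE
          refine ae_restrict_of_forall_mem (measurableSet_ball.prod measurableSet_Ioo) ?_
          rintro p ⟨a, -⟩
          have a' : ‖p.1‖ < 1 := by simpa using a
          simp only [Pi.zero_apply]; linarith
      _ = _ := by
          rw [hν, setIntegral_prod_mul (fun z : W => 1 - ‖z‖) (fun _ : ℝ => (1 : ℝ)),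
            cone_integral μ hk, setIntegral_const, Real.volume_real_Ioo_of_le (by linarith)]
          simp only [smul_eq_mul]; ring
  have gi := integrableOn_bdd ν gc Hb
  have Ig : 0 < ∫ p in H, g p ∂ν := by
    rw [setIntegral_pos_iff_support_of_nonneg_ae (.of_forall g0) gi]
    refine IsOpen.measure_pos ν (gc.isOpen_support.inter Ho) ⟨(0, 1 + δ - κ * δ / 2), ?_, ?_⟩
    · have h1 : 0 < κ * δ := by positivity
      have h2 : κ * δ < δ := by nlinarith
      simp only [hg, Function.mem_support]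
      rw [abs_of_pos (by linarith), max_eq_left (by linarith)]
      linarith
    · have h1 : 0 < κ * δ := by positivity
      have h2 : κ * δ < δ := by nlinarith
      simp only [hH, mem_ofPred_eq, norm_zero]
      rw [abs_of_pos (by linarith)]
      constructor <;> linarith
  have hlim : Tendsto (fun j : ℕ => ∫ p in H, g p * h (j + 1) p ∂ν) atTop
      (𝓝 (∫ p in H, g p * (1 - ‖p.1‖) ∂ν)) := by
    refine tendsto_integral_of_dominated_convergence g
      (fun j => (gc.mul (hc' _)).aestronglyMeasurable) gi (fun j => ?_) ?_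
    · refine ae_restrict_of_forall_mem Ho.measurableSet fun p hp => ?_
      have h1 : 0 < h (j + 1) p := by
        have := hpos (j + 1) (by positivity); rw [← this] at hp; exact hp
      have h2 : h (j + 1) p ≤ 1 := (min_le_left _ _).trans (by linarith [norm_nonneg p.1])
      rw [Real.norm_eq_abs, abs_of_nonneg (mul_nonneg (g0 p) h1.le)]
      exact mul_le_of_le_one_right (g0 p) h2
    · refine ae_restrict_of_forall_mem Ho.measurableSet fun p hp => ?_
      have h1 : 0 < 1 + δ - |p.2| - δ * ‖p.1‖ := by linarith [hp.2]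
      obtain ⟨N, hN⟩ := exists_nat_gt (1 / (1 + δ - |p.2| - δ * ‖p.1‖))
      rw [div_lt_iff₀ h1] at hN
      refine tendsto_const_nhds.congr' ((eventually_ge_atTop N).mono fun j hj => ?_)
      have hj' : (N : ℝ) ≤ j := by exact_mod_cast hj
      simp only [hh]
      rw [min_eq_left]
      nlinarith [norm_nonneg p.1]
  have hlow : q * ∫ p in H, g p ∂ν < ∫ p in H, g p * (1 - ‖p.1‖) ∂ν := by
    have : ∫ p in H, (1 - κ) * g p ∂ν ≤ ∫ p in H, g p * (1 - ‖p.1‖) ∂ν := by
      refine setIntegral_mono_on (gi.const_mul _) (integrableOn_bdd ν (by fun_prop) Hb)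
        Ho.measurableSet fun p hp => ?_
      rcases le_total (|p.2| - (1 + δ - κ * δ)) 0 with a | a
      · simp [hg, max_eq_right a]
      · have : δ * ‖p.1‖ < δ * κ := by linarith [hp.2]
        have := lt_of_mul_lt_mul_left this hδ.le
        nlinarith [g0 p]
    rw [integral_const_mul] at this
    nlinarith
  obtain ⟨j, hj⟩ := (hlim.eventually (lt_mem_nhds hlow)).exists
  have hj0 : (0 : ℝ) < j + 1 := by positivity
  have hLip : ∃ L, LipschitzWith L (h (j + 1)) := by
    have l1 : LipschitzWith 1 fun p : W × ℝ => ‖p.1‖ :=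
      by simpa [Function.comp_def] using lipschitzWith_one_norm.comp LipschitzWith.prod_fst
    have l2 : LipschitzWith 1 fun p : W × ℝ => |p.2| :=
      by simpa [Function.comp_def] using
        lipschitzWith_one_norm.comp (LipschitzWith.prod_snd (α := W) (β := ℝ))
    refine ⟨max 1 (Real.toNNReal ((j + 1) * (1 + δ))), LipschitzWith.min ?_ ?_⟩
    · simpa using (LipschitzWith.const (1 : ℝ)).sub l1
    · refine LipschitzWith.of_dist_le' fun p p' => ?_
      have a := l1.dist_le_mul p p'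
      have b := l2.dist_le_mul p p'
      simp only [NNReal.coe_one, one_mul, Real.dist_eq] at a b ⊢
      rw [← mul_sub, abs_mul, abs_of_pos hj0, mul_assoc]
      gcongr
      rw [abs_le] at a b ⊢
      constructor <;> nlinarith [a.1, a.2, b.1, b.2]
  obtain ⟨L, hL⟩ := hLip
  have c1 : ConvexOn ℝ univ fun p : W × ℝ => ‖p.1‖ :=
    (convexOn_univ_norm (E := W)).comp_linearMap (LinearMap.fst ℝ W ℝ)
  have c2 : ConvexOn ℝ univ fun p : W × ℝ => |p.2| :=
    (convexOn_univ_norm (E := ℝ)).comp_linearMap (LinearMap.snd ℝ W ℝ)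
  refine ⟨h (j + 1), g, L, hL, ?_, fun p => by simp [hh], ?_, ?_, gc, ?_, g0,
    fun p => by simp [hg], ?_⟩
  · refine ConcaveOn.inf ((concaveOn_const 1 convex_univ).sub c1) ?_
    exact (((concaveOn_const (1 + δ) convex_univ).sub c2).sub (c1.smul hδ.le)).smul hj0.le
  · simp only [hh, Prod.fst_zero, Prod.snd_zero, norm_zero, abs_zero, lt_min_iff]
    constructor
    · norm_num
    · simp only [sub_zero, mul_zero]; positivity
  · rw [hpos _ hj0]; exact Hb
  · exact (c2.sub (concaveOn_const _ convex_univ)).sup (convexOn_const 0 convex_univ)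
  · rw [hpos _ hj0]
    have e1 : c * (∫ p in H, g p ∂ν) * (∫ p in H, h (j + 1) p ∂ν) ≤
        c * (∫ p in H, g p ∂ν) * (2 * (1 + δ) * (ω / (k + 2))) :=
      mul_le_mul_of_nonneg_left (Hh _) (by positivity)
    have e2 : c * (∫ p in H, g p ∂ν) * (2 * (1 + δ) * (ω / (k + 2))) =
        2 * ω * (q * ∫ p in H, g p ∂ν) := by rw [hq]; ring
    have e3 : 0 ≤ q * ∫ p in H, g p ∂ν := by positivity
    nlinarith

end Ex

/-- plates exist on every Euclidean space of dimension at least two -/
lemma plate_exists {V : Type*} [NormedAddCommGroup V] [InnerProductSpace ℝ V]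
    [FiniteDimensional ℝ V] [MeasurableSpace V] [BorelSpace V] (μ : Measure V)
    [μ.IsAddHaarMeasure] {k : ℕ} (hk : finrank ℝ V = k + 2) {c : ℝ} (hc0 : 0 ≤ c)
    (hc : c < k + 2) : Plate μ c := by
  have : Nontrivial V := Module.nontrivial_of_finrank_pos (R := ℝ) (by omega)
  obtain ⟨p, hp⟩ := exists_ne (0 : V)
  exact plate_transport (dec p hp) ((volume : Measure (ℝ ∙ p)ᗮ).prod volume) μ
    (plate_prod volume (finrank_perp p hp hk) hc0 hc)

end Pool.Agent.MP_a32717_an.Sym
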